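import Pool.Agent.Lib.MP_ca0971_gt.OT.Loc.Sym
import Pool.Agent.Lib.MP_ca0971_gt.OT.Ang
import Pool.Agent.Lib.MP_ca0971_gt.OT.DiaS

/-!
# Project OT, Loc: normalisation of the angles by a gauge transformation
-/

set_option autoImplicit false

namespace Pool.Agent.Lib.MP_ca0971_gt.OT

open Finset Filter Topology

variable {I : Type} [Fintype I] [DecidableEq I] {σ : Equiv.Perm I}

/-- The diagram of a generic polygon is fine (irr, asym, inj from Gen.trp, sgn). -/
theorem dia_ok {v : I → E} (hG : Gen σ v) : (dia σ v).Ok := by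
  have hc : ∀ i j, (i, j) ∈ (dia σ v).C ↔ Crs σ v i j ∧ ht σ v j i < ht σ v i j := by
    intro i j
    simp [dia]
  have hp : ∀ i j, (dia σ v).Pas i j → Crs σ v i j := by
    intro i j h
    rcases h with h | h
    · exact ((hc i j).1 h).1
    · exact Crs.symm' ((hc j i).1 h).1
  refine ⟨fun i h => ?_, fun i j h h' => ?_, fun i j k h h' he => ?_, fun i j _ => ?_⟩
  · exact ((hc i i).1 h).1.1 (Or.inl rfl)
  · exact lt_asymm ((hc i j).1 h).2 ((hc j i).1 h').2
  · exact hG.trp i j k (hp i j h) (hp i k h') he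
  · change (if 0 < dt (dd σ v i) (dd σ v j) then (1 : ℝ) else -1) = 1 ∨
      (if 0 < dt (dd σ v i) (dd σ v j) then (1 : ℝ) else -1) = -1
    split_ifs
    · exact Or.inl rfl
    · exact Or.inr rfl

/-- The diagram of v' and hyb v v' v' ∅ differ by the gauge transformation h = rot (Dia.Z_gauge):
the crossings are the same by n1 and n4 and Crs.mt, the signs by n3, the angles by n6, n7. -/
theorem norm_Z {v v' : I → E} {η : ℝ} (hN : Near σ v v' η) (hG : Gen σ v') (N : ℕ) (S : Set ℂ) :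
    (dia σ v').Z σ N = (hyb σ v v' v' S).Z σ N ∧ (dia σ v').w = (hyb σ v v' v' S).w := by
  have hc : ∀ i j, (i, j) ∈ (dia σ v').C ↔ Crs σ v' i j ∧ ht σ v' j i < ht σ v' i j := by
    intro i j
    simp [dia]
  have hc' : ∀ i j, (i, j) ∈ (hyb σ v v' v' S).C ↔
      Mt σ v i j ∧ ht σ v j i < ht σ v i j ∧ Crs σ v' i j := by
    intro i j
    simp [hyb]
  have hmt : ∀ i j, Crs σ v' i j → Mt σ v i j := by
    intro i j h
    by_contra hcon
    exact hN.n1 i j h.1 hcon h
  have hC : (hyb σ v v' v' S).C = (dia σ v').C := by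
    ext ⟨i, j⟩
    rw [hc, hc']
    constructor
    · rintro ⟨h1, h2, h3⟩
      exact ⟨h3, (hN.n4 i j h1).1 h2⟩
    · rintro ⟨h1, h2⟩
      exact ⟨hmt i j h1, (hN.n4 i j (hmt i j h1)).2 h2, h1⟩
  have hep : ∀ i j, (i, j) ∈ (dia σ v').C → (hyb σ v v' v' S).ep i j = (dia σ v').ep i j := by
    intro i j h
    have h3 := hN.n3 i j (hmt i j ((hc i j).1 h).1)
    change (if 0 < dt (dd σ v i) (dd σ v j) then (1 : ℝ) else -1) =
      (if 0 < dt (dd σ v' i) (dd σ v' j) then (1 : ℝ) else -1)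
    rcases pos_and_pos_or_neg_and_neg_of_mul_pos h3 with h4 | h4
    · rw [if_pos h4.1, if_pos h4.2]
    · rw [if_neg h4.1.not_gt, if_neg h4.2.not_gt]
  constructor
  · symm
    refine Dia.Z_gauge σ N (dia σ v') (hyb σ v v' v' S) (dia_ok hG) (fun i => -rot σ v v' i) hC ?_
      ?_ hep ?_
    · funext i j
      simp only [hyb, dia, ite_self]
    · intro i
      change turn (dd σ v (σ i) / dd σ v i) = turn (dd σ v' (σ i) / dd σ v' i) +
        -rot σ v v' (σ i) - -rot σ v v' i
      rw [hN.n6 i]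
      ring
    · intro i j h
      change turn (dd σ v j / dd σ v i) = turn (dd σ v' j / dd σ v' i) +
        -rot σ v v' j - -rot σ v v' i
      rw [hN.n7 i j (hmt i j ((hc i j).1 h).1)]
      ring
  · unfold Dia.w
    rw [hC]
    refine Finset.sum_congr rfl fun x hx => ?_
    exact (hep x.1 x.2 hx).symm

end Pool.Agent.Lib.MP_ca0971_gt.OT
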