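import Pool.Agent.Lib.MP_ca0971_gt.OT.Loc.VSpot
import Pool.Agent.Lib.MP_ca0971_gt.OT.Ang

/-!
# Project OT, Loc: the crossings near a triple point
-/

set_option autoImplicit false

namespace Pool.Agent.Lib.MP_ca0971_gt.OT

open Finset Filter Topology

variable {I : Type} [Fintype I] [DecidableEq I] {σ : Equiv.Perm I}

theorem sg1_mul_pos {a : ℝ} (h : a ≠ 0) : 0 < sg1 a * a := by
  unfold sg1
  split_ifs with h1
  · linarith
  · have : a < 0 := lt_of_le_of_ne (not_lt.1 h1) h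
    linarith

theorem sg1_cases (a : ℝ) : sg1 a = 1 ∨ sg1 a = -1 := by
  unfold sg1
  split_ifs
  · exact Or.inl rfl
  · exact Or.inr rfl

/-- `p` is the difference of two positions, `c` the concurrency determinant, `a' b'` have the signs of
`a b`. -/
theorem sign_aux {p c a b a' b' : ℝ} (hc : c ≠ 0) (ha : 0 < a * a') (hb : 0 < b * b')
    (h : p * (a' * b') = -c) : 0 < p ↔ 0 < -sg1 c * sg1 a * sg1 b := by
  have a0 : a ≠ 0 := left_ne_zero_of_mul ha.ne'
  have b0 : b ≠ 0 := left_ne_zero_of_mul hb.ne'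
  have ga := sg1_mul_pos a0
  have gb := sg1_mul_pos b0
  have gc := sg1_mul_pos hc
  have ha' : 0 < sg1 a * a' := by
    rw [← pos_mul_congr ha]
    exact ga
  have hb' : 0 < sg1 b * b' := by
    rw [← pos_mul_congr hb]
    exact gb
  have hab : 0 < (sg1 a * sg1 b) * (a' * b') := by
    have := mul_pos ha' hb'
    calc 0 < sg1 a * a' * (sg1 b * b') := this
      _ = _ := by ring
  have e1 : 0 < p ↔ 0 < (sg1 a * sg1 b) * -c := by
    rw [← h]
    have e : (sg1 a * sg1 b) * (p * (a' * b')) = p * ((sg1 a * sg1 b) * (a' * b')) := by ring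
    rw [e]
    constructor
    · intro hp
      exact mul_pos hp hab
    · intro hp
      exact pos_of_mul_pos_left hp hab.le
  rw [e1, pos_mul_congr (a := -c) (b := -sg1 c) (by linarith)]
  have e : (sg1 a * sg1 b) * -sg1 c = -sg1 c * sg1 a * sg1 b := by ring
  rw [e]

omit [Fintype I] [DecidableEq I] in
/-- s = - sign of cdet v' t m b (par_cdet, cdet_rot, cdet_swap; the signs of the dt are those of v by
n3; cdet ≠ 0 by Gen.trp). All three pairs cross in v' (n2, Gap.lo, Gap.hi, n3). -/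
theorem tspot {v v' : I → E} {η : ℝ} {z : ℂ} {t m b : I} (hg : Gap σ v η) (hN : Near σ v v' η)
    (hG : Gen σ v') (hS : SpotT σ v z t m b) :
    (∀ x y, (x = t ∨ x = m ∨ x = b) → (y = t ∨ y = m ∨ y = b) → x ≠ y → Crs σ v' x y) ∧
    ∃ s : ℝ, (s = 1 ∨ s = -1) ∧
      (par σ v' t b < par σ v' t m ↔
        0 < s * sg1 (dt (dd σ v t) (dd σ v m)) * sg1 (dt (dd σ v t) (dd σ v b))) ∧
      (par σ v' m b < par σ v' m t ↔
        0 < s * sg1 (dt (dd σ v t) (dd σ v m)) * sg1 (dt (dd σ v m) (dd σ v b))) ∧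
      (par σ v' b m < par σ v' b t ↔
        0 < s * sg1 (dt (dd σ v t) (dd σ v b)) * sg1 (dt (dd σ v m) (dd σ v b))) := by
  have hcr : ∀ x y, (x = t ∨ x = m ∨ x = b) → (y = t ∨ y = m ∨ y = b) → x ≠ y →
      Crs σ v' x y := by
    intro x y hx hy hxy
    have m1 := hS.mt x y hx hy hxy
    have m2 := hS.mt y x hy hx hxy.symm
    obtain ⟨a1, a2, a3⟩ := hN.bds hg m1
    obtain ⟨b1, b2, -⟩ := hN.bds hg m2
    have p1 := hS.p1 x y hx hy hxy
    have p2 := hS.p1 y x hy hx hxy.symm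
    exact ⟨m1.1, a3, a1 p1.1, a2 p1.2, b1 p2.1, b2 p2.2⟩
  refine ⟨hcr, ?_⟩
  obtain ⟨n1, n2, n3⟩ := hS.ne
  have ct : t = t ∨ t = m ∨ t = b := Or.inl rfl
  have cm : m = t ∨ m = m ∨ m = b := Or.inr (Or.inl rfl)
  have cb : b = t ∨ b = m ∨ b = b := Or.inr (Or.inr rfl)
  have ktm := hcr t m ct cm n1
  have ktb := hcr t b ct cb n2
  have kmb := hcr m b cm cb n3
  have kmt := ktm.symm'
  have kbt := ktb.symm'
  have kbm := kmb.symm'
  have stm := hN.n3 t m (hS.mt t m ct cm n1)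
  have stb := hN.n3 t b (hS.mt t b ct cb n2)
  have smb := hN.n3 m b (hS.mt m b cm cb n3)
  have smt := hN.n3 m t (hS.mt m t cm ct n1.symm)
  have sbt := hN.n3 b t (hS.mt b t cb ct n2.symm)
  have sbm := hN.n3 b m (hS.mt b m cb cm n3.symm)
  have e1 := par_cdet (σ := σ) v' ktm.2.1 ktb.2.1
  have e2 := par_cdet (σ := σ) v' kmt.2.1 kmb.2.1
  have e3 := par_cdet (σ := σ) v' kbt.2.1 kbm.2.1
  have r1 : cdet σ v' m t b = -cdet σ v' t m b := by
    rw [← cdet_rot v' t m b, cdet_swap v' m b t]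
  have r2 : cdet σ v' b t m = cdet σ v' t m b := by
    rw [cdet_rot v' m b t, cdet_rot v' t m b]
  rw [r1] at e2
  rw [r2] at e3
  have hc0 : cdet σ v' t m b ≠ 0 := by
    intro h0
    rw [h0, neg_zero] at e1
    have h1 : par σ v' t m = par σ v' t b := by
      rcases mul_eq_zero.1 e1 with h | h
      · linarith
      · exact absurd h (mul_ne_zero ktm.2.1 ktb.2.1)
    exact n3 (hG.trp t m b ktm ktb h1)
  set c := cdet σ v' t m b with hc
  refine ⟨-sg1 c, ?_, ?_, ?_, ?_⟩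
  · rcases sg1_cases c with h | h
    · right
      rw [h]
    · left
      rw [h]
      norm_num
  · rw [← sign_aux hc0 stm stb e1, sub_pos]
  · have h : (par σ v' m t - par σ v' m b) *
        (dt (dd σ v' t) (dd σ v' m) * dt (dd σ v' m) (dd σ v' b)) = -c := by
      rw [dt_swap (dd σ v' t) (dd σ v' m)]
      linarith
    rw [← sign_aux hc0 stm smb h, sub_pos]
  · have h : (par σ v' b t - par σ v' b m) *
        (dt (dd σ v' t) (dd σ v' b) * dt (dd σ v' m) (dd σ v' b)) = -c := by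
      rw [dt_swap (dd σ v' t) (dd σ v' b), dt_swap (dd σ v' m) (dd σ v' b)]
      linarith
    rw [← sign_aux hc0 stb smb h, sub_pos]

end Pool.Agent.Lib.MP_ca0971_gt.OT
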