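import Pool.Agent.Lib.MP_ca0971_gt.OT.Loc.Def

/-!
# Project OT, Loc: elementary formulas
-/

set_option autoImplicit false

namespace Pool.Agent.Lib.MP_ca0971_gt.OT

open Finset Filter Topology

variable {I : Type} [Fintype I] [DecidableEq I] {σ : Equiv.Perm I}

/-! ### Formulas for complex numbers -/

theorem dt_swap (a b : ℂ) : dt a b = - dt b a := by
  unfold dt
  ring

theorem dt_ne_symm {a b : ℂ} (h : dt a b ≠ 0) : dt b a ≠ 0 := by
  rw [dt_swap b a]
  exact neg_ne_zero.2 h

theorem cramer {p q d e : ℂ} (h : dt d e ≠ 0) :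
    p + ((dt (q - p) e / dt d e : ℝ) : ℂ) * d = q + ((dt (p - q) d / dt e d : ℝ) : ℂ) * e := by
  have k : ∀ A B u v D : ℝ, D ≠ 0 → A / D * u - B / (-D) * v = (A * u + B * v) / D := by
    intro A B u v D hD
    field_simp
    ring
  have k1 : (dt (q - p) e / dt d e) * d.re - (dt (p - q) d / dt e d) * e.re = q.re - p.re := by
    rw [dt_swap e d, k _ _ _ _ _ h, div_eq_iff h]
    unfold dt
    rw [Complex.sub_re, Complex.sub_im, Complex.sub_re, Complex.sub_im]
    ring
  have k2 : (dt (q - p) e / dt d e) * d.im - (dt (p - q) d / dt e d) * e.im = q.im - p.im := by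
    rw [dt_swap e d, k _ _ _ _ _ h, div_eq_iff h]
    unfold dt
    rw [Complex.sub_re, Complex.sub_im, Complex.sub_re, Complex.sub_im]
    ring
  apply Complex.ext
  · rw [Complex.add_re, Complex.add_re, Complex.re_ofReal_mul, Complex.re_ofReal_mul]
    linarith
  · rw [Complex.add_im, Complex.add_im, Complex.im_ofReal_mul, Complex.im_ofReal_mul]
    linarith

theorem cramer_unique {p q d e : ℂ} (h : dt d e ≠ 0) {s t : ℝ}
    (hst : p + (s : ℂ) * d = q + (t : ℂ) * e) :
    s = dt (q - p) e / dt d e ∧ t = dt (p - q) d / dt e d := by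
  have h' := dt_ne_symm h
  have k1 := congrArg Complex.re hst
  have k2 := congrArg Complex.im hst
  rw [Complex.add_re, Complex.add_re, Complex.re_ofReal_mul, Complex.re_ofReal_mul] at k1
  rw [Complex.add_im, Complex.add_im, Complex.im_ofReal_mul, Complex.im_ofReal_mul] at k2
  constructor
  · rw [eq_div_iff h]
    unfold dt
    rw [Complex.sub_re, Complex.sub_im]
    linear_combination e.im * k1 - e.re * k2
  · rw [eq_div_iff h']
    unfold dt
    rw [Complex.sub_re, Complex.sub_im]
    linear_combination d.re * k2 - d.im * k1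

theorem side_aux {p q d e : ℂ} (h : dt d e ≠ 0) :
    dt e (p + d - q) = (1 - dt (q - p) e / dt d e) * dt e d := by
  have k : dt (q - p) e / dt d e * dt e d = - dt (q - p) e := by
    rw [dt_swap e d]
    field_simp
  rw [sub_mul, k]
  unfold dt
  simp only [Complex.sub_re, Complex.sub_im, Complex.add_re, Complex.add_im]
  ring

theorem side_aux' {p q d e : ℂ} (h : dt d e ≠ 0) :
    dt e (p - q) = -(dt (q - p) e / dt d e) * dt e d := by
  have k : dt (q - p) e / dt d e * dt e d = - dt (q - p) e := by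
    rw [dt_swap e d]
    field_simp
  rw [neg_mul, k]
  unfold dt
  simp only [Complex.sub_re, Complex.sub_im]
  ring

theorem diff_aux {p q d e f : ℂ} (h : dt e d ≠ 0) (h' : dt e f ≠ 0) :
    (dt (p + d - q) f / dt e f - dt (p - q) d / dt e d) * (dt e d * dt e f) =
      dt e (p + d - q) * dt d f := by
  have k : (dt (p + d - q) f / dt e f - dt (p - q) d / dt e d) * (dt e d * dt e f) =
      dt (p + d - q) f * dt e d - dt (p - q) d * dt e f := by
    field_simp
  rw [k]
  unfold dt
  simp only [Complex.sub_re, Complex.sub_im, Complex.add_re, Complex.add_im]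
  ring

theorem cdet_aux {p q r d e f : ℂ} (h1 : dt d e ≠ 0) (h2 : dt d f ≠ 0) :
    (dt (q - p) e / dt d e - dt (r - p) f / dt d f) * (dt d e * dt d f) =
      -(dt p d * dt e f + dt q e * dt f d + dt r f * dt d e) := by
  have k : (dt (q - p) e / dt d e - dt (r - p) f / dt d f) * (dt d e * dt d f) =
      dt (q - p) e * dt d f - dt (r - p) f * dt d e := by
    field_simp
  rw [k]
  unfold dt
  simp only [Complex.sub_re, Complex.sub_im]
  ring

/-! ### Edges -/

omit [Fintype I] [DecidableEq I] in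
/-- The two parameters give the same point: p_i + par_ij d_i = p_j + par_ji d_j. -/
theorem mp_symm (v : I → E) {i j : I} (h : dt (dd σ v i) (dd σ v j) ≠ 0) : mp σ v i j = mp σ v j i := by
  rw [mp, mp, par, par]
  exact cramer h

omit [Fintype I] [DecidableEq I] in
/-- The intersection point of two lines is unique. -/
theorem par_unique (v : I → E) {i j : I} (h : dt (dd σ v i) (dd σ v j) ≠ 0) {s t : ℝ}
    (hst : (v i).1 + (s : ℂ) * dd σ v i = (v j).1 + (t : ℂ) * dd σ v j) :
    s = par σ v i j ∧ t = par σ v j i := by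
  rw [par, par]
  exact cramer_unique h hst

omit [Fintype I] [DecidableEq I] in
theorem Adj.symm' {i j : I} (h : Adj σ i j) : Adj σ j i := by
  rcases h with h | h | h
  · exact Or.inl h.symm
  · exact Or.inr (Or.inr h)
  · exact Or.inr (Or.inl h)

omit [Fintype I] [DecidableEq I] in
theorem Mt.symm' {v : I → E} {i j : I} (h : Mt σ v i j) : Mt σ v j i := by
  obtain ⟨h1, h2, h3, h4, h5, h6⟩ := h
  exact ⟨fun k => h1 (Adj.symm' k), dt_ne_symm h2, h5, h6, h3, h4⟩

omit [Fintype I] [DecidableEq I] in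
theorem Crs.symm' {v : I → E} {i j : I} (h : Crs σ v i j) : Crs σ v j i := by
  obtain ⟨h1, h2, h3, h4, h5, h6⟩ := h
  exact ⟨fun k => h1 (Adj.symm' k), dt_ne_symm h2, h5, h6, h3, h4⟩

omit [Fintype I] [DecidableEq I] in
theorem Crs.mt {v : I → E} {i j : I} (h : Crs σ v i j) : Mt σ v i j := by
  obtain ⟨h1, h2, h3, h4, h5, h6⟩ := h
  exact ⟨h1, h2, h3.le, h4.le, h5.le, h6.le⟩

omit [Fintype I] [DecidableEq I] in
/-- On an edge with nonzero direction the position is determined by the point. -/
theorem par_eq_iff (v : I → E) {i j k : I} (h : dd σ v i ≠ 0) :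
    par σ v i j = par σ v i k ↔ mp σ v i j = mp σ v i k := by
  unfold mp
  rw [add_right_inj]
  constructor
  · intro k
    rw [k]
  · intro k
    exact_mod_cast mul_right_cancel₀ h k

omit [Fintype I] [DecidableEq I] in
/-- Side formula: with f = dt d_j (p_(σ i) - p_j), f = (1 - par_ij) dt d_j d_i. -/
theorem side_end (v : I → E) {i j : I} (h : dt (dd σ v i) (dd σ v j) ≠ 0) :
    dt (dd σ v j) ((v (σ i)).1 - (v j).1) = (1 - par σ v i j) * dt (dd σ v j) (dd σ v i) := by
  have e : (v (σ i)).1 = (v i).1 + dd σ v i := by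
    unfold dd
    ring
  rw [e]
  exact side_aux h

omit [Fintype I] [DecidableEq I] in
/-- Side formula at the start of an edge m: f = dt d_j (p_m - p_j) = - par_mj dt d_j d_m. -/
theorem side_start (v : I → E) {m j : I} (h : dt (dd σ v m) (dd σ v j) ≠ 0) :
    dt (dd σ v j) ((v m).1 - (v j).1) = - par σ v m j * dt (dd σ v j) (dd σ v m) := by
  exact side_aux' h

omit [Fintype I] [DecidableEq I] in
/-- Difference of the two positions on the edge j of the edges i and σ i, f as above. -/
theorem par_diff (v : I → E) {i j : I} (h : dt (dd σ v i) (dd σ v j) ≠ 0)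
    (h' : dt (dd σ v (σ i)) (dd σ v j) ≠ 0) :
    (par σ v j (σ i) - par σ v j i) * (dt (dd σ v j) (dd σ v i) * dt (dd σ v j) (dd σ v (σ i))) =
      dt (dd σ v j) ((v (σ i)).1 - (v j).1) * dt (dd σ v i) (dd σ v (σ i)) := by
  have e : (v (σ i)).1 = (v i).1 + dd σ v i := by
    unfold dd
    ring
  rw [par, par, e]
  exact diff_aux (dt_ne_symm h) (dt_ne_symm h')

/-- The concurrency determinant of three edges. -/
def cdet (σ : Equiv.Perm I) (v : I → E) (t m b : I) : ℝ :=
  dt (v t).1 (dd σ v t) * dt (dd σ v m) (dd σ v b) + dt (v m).1 (dd σ v m) * dt (dd σ v b) (dd σ v t)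
    + dt (v b).1 (dd σ v b) * dt (dd σ v t) (dd σ v m)

omit [Fintype I] [DecidableEq I] in
/-- par t m - par t b = - cdet / (D_tm D_tb). -/
theorem par_cdet (v : I → E) {t m b : I} (h1 : dt (dd σ v t) (dd σ v m) ≠ 0)
    (h2 : dt (dd σ v t) (dd σ v b) ≠ 0) :
    (par σ v t m - par σ v t b) * (dt (dd σ v t) (dd σ v m) * dt (dd σ v t) (dd σ v b)) =
      - cdet σ v t m b := by
  unfold par cdet
  exact cdet_aux h1 h2

omit [Fintype I] [DecidableEq I] in
/-- cdet is alternating. -/
theorem cdet_rot (v : I → E) (t m b : I) : cdet σ v m b t = cdet σ v t m b := by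
  unfold cdet
  ring

omit [Fintype I] [DecidableEq I] in
theorem cdet_swap (v : I → E) (t m b : I) : cdet σ v t b m = - cdet σ v t m b := by
  unfold cdet
  rw [dt_swap (dd σ v b) (dd σ v m), dt_swap (dd σ v m) (dd σ v t), dt_swap (dd σ v t) (dd σ v b)]
  ring

end Pool.Agent.Lib.MP_ca0971_gt.OT
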