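import Pool.Agent.Lib.MP_ca0971_gt.OT.Loc.Sym

/-!
# Project OT, Loc: the three kinds of coincidences of a tame polygon
-/

set_option autoImplicit false

namespace Pool.Agent.Lib.MP_ca0971_gt.OT

open Finset Filter Topology

variable {I : Type} [Fintype I] [DecidableEq I] {σ : Equiv.Perm I}

omit [Fintype I] [DecidableEq I] in
theorem mem_sg {v : I → E} {x : I} {z : ℂ} :
    z ∈ sg σ v x ↔ ∃ s : ℝ, 0 ≤ s ∧ s ≤ 1 ∧ z = (v x).1 + (s : ℂ) * dd σ v x := by
  rw [sg, segment_eq_image']
  constructor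
  · rintro ⟨s, hs, h⟩
    refine ⟨s, hs.1, hs.2, ?_⟩
    rw [← h]
    simp [dd]
  · rintro ⟨s, h0, h1, h⟩
    refine ⟨s, ⟨h0, h1⟩, ?_⟩
    rw [h]
    simp [dd]

omit [Fintype I] [DecidableEq I] in
theorem end_mem_sg (v : I → E) (x : I) : (v (σ x)).1 ∈ sg σ v x := right_mem_segment _ _ _

omit [Fintype I] [DecidableEq I] in
theorem start_mem_sg (v : I → E) (x : I) : (v x).1 ∈ sg σ v x := left_mem_segment _ _ _

omit [Fintype I] [DecidableEq I] in
theorem Tame.dd_ne {v : I → E} (hT : Tame σ v) (i : I) : dd σ v i ≠ 0 := by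
  intro h
  have := hT.slit i
  rw [h, div_zero] at this
  exact Complex.zero_notMem_slitPlane this

omit [Fintype I] [DecidableEq I] in
theorem Tame.fix {v : I → E} (hT : Tame σ v) (i : I) : σ i ≠ i := by
  intro h
  exact hT.dd_ne i (by rw [dd, h, sub_self])

omit [Fintype I] [DecidableEq I] in
theorem mp_mem {v : I → E} {x y : I} (h : Mt σ v x y) :
    mp σ v x y ∈ sg σ v x ∧ mp σ v x y ∈ sg σ v y := by
  refine ⟨mem_sg.2 ⟨par σ v x y, h.2.2.1, h.2.2.2.1, rfl⟩, ?_⟩
  rw [mp_symm v h.2.1]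
  exact mem_sg.2 ⟨par σ v y x, h.2.2.2.2.1, h.2.2.2.2.2, rfl⟩

omit [Fintype I] in
/-- If both adjacent edges i, σ i contain z then z is the common vertex (Tame.slit). -/
theorem adj_meet {v : I → E} (hT : Tame σ v) {i : I} {z : ℂ} (h1 : z ∈ sg σ v i)
    (h2 : z ∈ sg σ v (σ i)) : z = (v (σ i)).1 := by
  obtain ⟨s, hs0, hs1, hs⟩ := mem_sg.1 h1
  obtain ⟨t, ht0, ht1, ht⟩ := mem_sg.1 h2
  have hd := hT.dd_ne i
  have hsl := hT.slit i
  have e : ((s : ℂ) - 1) * dd σ v i = (t : ℂ) * dd σ v (σ i) := by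
    have h3 : (v (σ i)).1 = (v i).1 + dd σ v i := by simp [dd]
    rw [h3] at ht
    have := hs.symm.trans ht
    linear_combination this
  rcases eq_or_lt_of_le ht0 with h0 | h0
  · rw [ht, ← h0]
    simp
  · exfalso
    have ht' : (t : ℂ) ≠ 0 := by exact_mod_cast h0.ne'
    have e2 : dd σ v (σ i) / dd σ v i = (((s - 1) / t : ℝ) : ℂ) := by
      rw [div_eq_iff hd]
      push_cast
      field_simp
      linear_combination -e
    rw [e2] at hsl
    rcases Complex.mem_slitPlane_iff.1 hsl with h | h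
    · rw [Complex.ofReal_re] at h
      have : (s - 1) / t ≤ 0 := div_nonpos_of_nonpos_of_nonneg (by linarith) ht0
      linarith
    · exact h (Complex.ofReal_im _)

omit [Fintype I] in
/-- A vertex on a closed edge which does not contain it as a corner: the edge is not adjacent to the
two edges at the vertex, and it is met in its interior. (If j = σ⁻¹ i' is adjacent to an edge at the
vertex m then both contain their common vertex and p_m, so they are antiparallel: Tame.slit. Not
parallel: Tame.par0. Interior: Tame.vtx.) -/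
theorem vert_on {v : I → E} (hT : Tame σ v) {i j : I} (h1 : j ≠ σ i) (h2 : σ j ≠ σ i)
    (h : (v (σ i)).1 ∈ sg σ v j) :
    Mt σ v i j ∧ Mt σ v (σ i) j ∧ par σ v i j = 1 ∧ par σ v (σ i) j = 0 ∧ 0 < par σ v j i ∧
      par σ v j i < 1 ∧ par σ v j (σ i) = par σ v j i := by
  have n1 : ¬ Adj σ i j := by
    rintro (e | e | e)
    · exact h2 (by rw [e])
    · exact h1 e
    · have h3 : (v (σ i)).1 ∈ sg σ v (σ j) := by
        rw [← e]; exact end_mem_sg v i
      have h4 := adj_meet hT h h3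
      rw [← e] at h4
      exact hT.vtx (σ i) i (hT.fix i) h4
  have n2 : ¬ Adj σ (σ i) j := by
    rintro (e | e | e)
    · exact h1 e.symm
    · have h3 : (v (σ i)).1 ∈ sg σ v (σ i) := start_mem_sg v _
      have h4 : (v (σ i)).1 ∈ sg σ v (σ (σ i)) := by rw [← e]; exact h
      exact hT.vtx (σ i) (σ (σ i)) (hT.fix (σ i)).symm (adj_meet hT h3 h4)
    · exact h2 e.symm
  have d1 : dt (dd σ v i) (dd σ v j) ≠ 0 := fun h0 =>
    Set.disjoint_left.1 (hT.par0 i j n1 h0) (end_mem_sg v i) h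
  have d2 : dt (dd σ v (σ i)) (dd σ v j) ≠ 0 := fun h0 =>
    Set.disjoint_left.1 (hT.par0 (σ i) j n2 h0) (start_mem_sg v _) h
  obtain ⟨t, ht0, ht1, ht⟩ := mem_sg.1 h
  have e1 : (v i).1 + ((1 : ℝ) : ℂ) * dd σ v i = (v j).1 + (t : ℂ) * dd σ v j := by
    rw [← ht]; simp [dd]
  have e2 : (v (σ i)).1 + ((0 : ℝ) : ℂ) * dd σ v (σ i) = (v j).1 + (t : ℂ) * dd σ v j := by
    rw [← ht]; simp
  have u1 := par_unique v d1 e1
  have u2 := par_unique v d2 e2
  have t0 : 0 < t := by
    rcases eq_or_lt_of_le ht0 with h0 | h0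
    · exfalso
      rw [← h0] at ht
      simp only [Complex.ofReal_zero, zero_mul, add_zero] at ht
      exact hT.vtx (σ i) j h1.symm ht
    · exact h0
  have t1 : t < 1 := by
    rcases eq_or_lt_of_le ht1 with h0 | h0
    · exfalso
      rw [h0] at ht
      have : (v (σ i)).1 = (v (σ j)).1 := by
        rw [ht]; simp [dd]
      exact hT.vtx (σ i) (σ j) h2.symm this
    · exact h0
  refine ⟨⟨n1, d1, ?_, ?_, ?_, ?_⟩, ⟨n2, d2, ?_, ?_, ?_, ?_⟩, u1.1.symm, u2.1.symm, ?_, ?_, ?_⟩
  · rw [← u1.1]; norm_num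
  · rw [← u1.1]
  · rw [← u1.2]; exact ht0
  · rw [← u1.2]; exact ht1
  · rw [← u2.1]
  · rw [← u2.1]; norm_num
  · rw [← u2.2]; exact ht0
  · rw [← u2.2]; exact ht1
  · rw [← u1.2]; exact t0
  · rw [← u1.2]; exact t1
  · rw [← u1.2, ← u2.2]

omit [Fintype I] in
/-- A vertex spot. -/
theorem spotV_mk {v : I → E} (hT : Tame σ v) {a c : I} (h1 : c ≠ σ a) (h2 : σ c ≠ σ a)
    (h : (v (σ a)).1 ∈ sg σ v c) : SpotV σ v (v (σ a)).1 a c := by
  obtain ⟨m1, m2, p1, p2, p3, p4, p5⟩ := vert_on hT h1 h2 h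
  refine ⟨m1, m2, ?_, ?_, rfl, p1, p2, p3, p4, p5, ?_⟩
  · rw [mp, p1]; simp [dd]
  · rw [mp, p2]; simp
  · intro x y hm hz
    have hx : (v (σ a)).1 ∈ sg σ v x := hz ▸ (mp_mem hm).1
    have hy : (v (σ a)).1 ∈ sg σ v y := hz ▸ (mp_mem hm).2
    have key : ∀ x, (v (σ a)).1 ∈ sg σ v x → x = a ∨ x = σ a ∨ x = c := by
      intro x hx
      by_cases c1 : x = σ a
      · exact Or.inr (Or.inl c1)
      · by_cases c2 : σ x = σ a
        · exact Or.inl (σ.injective c2)
        · exact Or.inr (Or.inr (hT.one (σ a) x c c1 c2 h1 h2 hx h))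
    have na := hm.1
    rcases key x hx with rfl | rfl | rfl <;> rcases key y hy with rfl | rfl | rfl
    · exact absurd (Or.inl rfl) na
    · exact absurd (Or.inr (Or.inl rfl)) na
    · exact Or.inl ⟨rfl, rfl⟩
    · exact absurd (Or.inr (Or.inr rfl)) na
    · exact absurd (Or.inl rfl) na
    · exact Or.inr (Or.inr (Or.inl ⟨rfl, rfl⟩))
    · exact Or.inr (Or.inl ⟨rfl, rfl⟩)
    · exact Or.inr (Or.inr (Or.inr ⟨rfl, rfl⟩))
    · exact absurd (Or.inl rfl) na

omit [Fintype I] in
/-- Two edges through a point which is not a vertex. -/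
theorem int_pair {v : I → E} (hT : Tame σ v) {z : ℂ} (hz : ∀ m, (v m).1 ≠ z) {x y : I} (hxy : x ≠ y)
    (hx : z ∈ sg σ v x) (hy : z ∈ sg σ v y) :
    Crs σ v x y ∧ mp σ v x y = z ∧ par σ v x y = ((z - (v x).1) / dd σ v x).re := by
  have n1 : ¬ Adj σ x y := by
    rintro (e | e | e)
    · exact hxy e
    · subst e
      exact hz (σ x) (adj_meet hT hx hy).symm
    · subst e
      exact hz (σ y) (adj_meet hT hy hx).symm
  have d1 : dt (dd σ v x) (dd σ v y) ≠ 0 := fun h0 =>
    Set.disjoint_left.1 (hT.par0 x y n1 h0) hx hy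
  obtain ⟨s, hs0, hs1, hs⟩ := mem_sg.1 hx
  obtain ⟨t, ht0, ht1, ht⟩ := mem_sg.1 hy
  have u := par_unique v d1 (hs.symm.trans ht)
  have mid : ∀ w : I, ∀ r : ℝ, 0 ≤ r → r ≤ 1 → z = (v w).1 + (r : ℂ) * dd σ v w → 0 < r ∧ r < 1 := by
    intro w r h0 h1 h
    constructor
    · rcases eq_or_lt_of_le h0 with h2 | h2
      · exfalso
        rw [← h2] at h
        simp only [Complex.ofReal_zero, zero_mul, add_zero] at h
        exact hz w h.symm
      · exact h2
    · rcases eq_or_lt_of_le h1 with h2 | h2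
      · exfalso
        rw [h2] at h
        refine hz (σ w) ?_
        rw [h]; simp [dd]
      · exact h2
  have a1 := mid x s hs0 hs1 hs
  have a2 := mid y t ht0 ht1 ht
  refine ⟨⟨n1, d1, ?_, ?_, ?_, ?_⟩, ?_, ?_⟩
  · rw [← u.1]; exact a1.1
  · rw [← u.1]; exact a1.2
  · rw [← u.2]; exact a2.1
  · rw [← u.2]; exact a2.2
  · rw [mp, ← u.1]; exact hs.symm
  · rw [← u.1]
    have : (z - (v x).1) / dd σ v x = (s : ℂ) := by
      rw [div_eq_iff (hT.dd_ne x), hs]; ring
    rw [this, Complex.ofReal_re]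

/-- Height of the edge x over the point z of its projection. -/
noncomputable def hz (σ : Equiv.Perm I) (v : I → E) (z : ℂ) (x : I) : ℝ :=
  (v x).2 + ((z - (v x).1) / dd σ v x).re * dh σ v x

omit [Fintype I] in
/-- A triple point. -/
theorem spotT_mk {v : I → E} (hT : Tame σ v) {z : ℂ} (hv : ∀ m, (v m).1 ≠ z) {t m b : I}
    (h1 : t ≠ m) (h2 : t ≠ b) (h3 : m ≠ b) (ht : z ∈ sg σ v t) (hm : z ∈ sg σ v m)
    (hb : z ∈ sg σ v b) (hall : ∀ x, z ∈ sg σ v x → x = t ∨ x = m ∨ x = b)
    (g1 : hz σ v z b < hz σ v z m) (g2 : hz σ v z m < hz σ v z t) : SpotT σ v z t m b := by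
  have on : ∀ x, (x = t ∨ x = m ∨ x = b) → z ∈ sg σ v x := by
    rintro x (rfl | rfl | rfl) <;> assumption
  have hh : ∀ x y, x ≠ y → z ∈ sg σ v x → z ∈ sg σ v y → OT.ht σ v x y = hz σ v z x := by
    intro x y hne hx hy
    rw [OT.ht, (int_pair hT hv hne hx hy).2.2, hz]
  refine ⟨?_, ⟨h1, h2, h3⟩, ?_, ?_, ?_, ?_, ?_, ?_⟩
  · intro x y hx hy hne
    exact (int_pair hT hv hne (on x hx) (on y hy)).1.mt
  · intro x y hx hy hne
    exact (int_pair hT hv hne (on x hx) (on y hy)).2.1
  · intro x y hx hy hne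
    have := (int_pair hT hv hne (on x hx) (on y hy)).1
    exact ⟨this.2.2.1, this.2.2.2.1⟩
  · rw [hh m t h1.symm hm ht, hh t m h1 ht hm]; exact g2
  · rw [hh b t h2.symm hb ht, hh t b h2 ht hb]; exact g1.trans g2
  · rw [hh b m h3.symm hb hm, hh m b h3 hm hb]; exact g1
  · intro x y hxy he
    exact ⟨hall x (he ▸ (mp_mem hxy).1), hall y (he ▸ (mp_mem hxy).2)⟩

/-- Classification of the spots. Let Mt i j, mp i j = z. If z is a vertex p_m then m is a corner of i
or j (Tame.one, Tame.vtx) and vert_on, Tame.one give SpotV. Otherwise all edges through z contain z in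
the interior and are pairwise not adjacent (adj_meet), at most three of them by Tame.trp: SpotX or
SpotT (sort the heights, Tame.hgt; the height of the edge x over z does not depend on the partner). -/
theorem spot_cases {v : I → E} (hT : Tame σ v) {i j : I} (h : Mt σ v i j) :
    (∃ a c, SpotX σ v (mp σ v i j) a c) ∨ (∃ a c, SpotV σ v (mp σ v i j) a c) ∨
      (∃ t m b, SpotT σ v (mp σ v i j) t m b) := by
  obtain ⟨oi, oj⟩ := mp_mem h
  generalize hzz : mp σ v i j = z at oi oj ⊢
  have hij : i ≠ j := fun e => h.1 (Or.inl e)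
  by_cases hv : ∃ m, (v m).1 = z
  · right; left
    obtain ⟨m, hm⟩ := hv
    obtain ⟨a, rfl⟩ : ∃ a, σ a = m := ⟨σ.symm m, by simp⟩
    subst hm
    by_cases c1 : j = σ a ∨ σ j = σ a
    · -- then i is the other one
      have c2 : i ≠ σ a ∧ σ i ≠ σ a := by
        constructor
        · intro e
          rcases c1 with c1 | c1
          · exact hij (e.trans c1.symm)
          · exact h.1 (Or.inr (Or.inr (e.trans c1.symm)))
        · intro e
          rcases c1 with c1 | c1
          · exact h.1 (Or.inr (Or.inl (c1.trans e.symm)))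
          · exact hij (σ.injective (e.trans c1.symm))
      exact ⟨a, i, spotV_mk hT c2.1 c2.2 oi⟩
    · push Not at c1
      exact ⟨a, j, spotV_mk hT c1.1 c1.2 oj⟩
  · push Not at hv
    by_cases h3 : ∃ k, k ≠ i ∧ k ≠ j ∧ z ∈ sg σ v k
    · right; right
      obtain ⟨k, ki, kj, ok⟩ := h3
      have pij := int_pair hT hv hij oi oj
      have pik := int_pair hT hv ki.symm oi ok
      have pjk := int_pair hT hv kj.symm oj ok
      have pji := int_pair hT hv hij.symm oj oi
      have pki := int_pair hT hv ki ok oi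
      have pkj := int_pair hT hv kj ok oj
      have hall : ∀ x, z ∈ sg σ v x → x = i ∨ x = j ∨ x = k := by
        intro x ox
        by_cases xi : x = i
        · exact Or.inl xi
        · have pix := int_pair hT hv (Ne.symm xi) oi ox
          rcases hT.trp i j k x pij.1 pik.1 pix.1 (pij.2.2.trans pik.2.2.symm)
            (pij.2.2.trans pix.2.2.symm) with e | e | e
          · exact absurd e kj.symm
          · exact Or.inr (Or.inl e.symm)
          · exact Or.inr (Or.inr e.symm)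
      have hne : ∀ x y, x ≠ y → z ∈ sg σ v x → z ∈ sg σ v y → hz σ v z x ≠ hz σ v z y := by
        intro x y hxy hx hy
        have p := int_pair hT hv hxy hx hy
        have q := int_pair hT hv hxy.symm hy hx
        have hm := p.1.mt
        have := hT.hgt x y hm.1 hm.2.1 hm.2.2.1 hm.2.2.2.1 hm.2.2.2.2.1 hm.2.2.2.2.2
        rw [OT.ht, OT.ht, p.2.2, q.2.2] at this
        exact this
      rcases lt_or_gt_of_ne (hne i j hij oi oj) with a1 | a1 <;>
        rcases lt_or_gt_of_ne (hne i k ki.symm oi ok) with a2 | a2 <;>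
          rcases lt_or_gt_of_ne (hne j k kj.symm oj ok) with a3 | a3
      · exact ⟨k, j, i, spotT_mk hT hv kj ki hij.symm ok oj oi
          (fun x hx => by rcases hall x hx with e | e | e <;> simp [e]) a1 a3⟩
      · exact ⟨j, k, i, spotT_mk hT hv kj.symm hij.symm ki oj ok oi
          (fun x hx => by rcases hall x hx with e | e | e <;> simp [e]) a2 a3⟩
      · exact absurd (a1.trans a3) a2.asymm
      · exact ⟨j, i, k, spotT_mk hT hv hij.symm kj.symm ki.symm oj oi ok
          (fun x hx => by rcases hall x hx with e | e | e <;> simp [e]) a2 a1⟩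
      · exact ⟨k, i, j, spotT_mk hT hv ki kj hij ok oi oj
          (fun x hx => by rcases hall x hx with e | e | e <;> simp [e]) a1 a2⟩
      · exact absurd (a3.trans a1) a2.asymm
      · exact ⟨i, k, j, spotT_mk hT hv ki.symm hij kj oi ok oj
          (fun x hx => by rcases hall x hx with e | e | e <;> simp [e]) a3 a2⟩
      · exact ⟨i, j, k, spotT_mk hT hv hij ki.symm kj.symm oi oj ok
          (fun x hx => by rcases hall x hx with e | e | e <;> simp [e]) a3 a1⟩
    · push Not at h3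
      left
      have pij := int_pair hT hv hij oi oj
      refine ⟨i, j, h, hzz, pij.1.2.2.1, pij.1.2.2.2.1, pij.1.2.2.2.2.1, pij.1.2.2.2.2.2, ?_⟩
      intro a c hac he
      have oa : z ∈ sg σ v a := he ▸ (mp_mem hac).1
      have oc : z ∈ sg σ v c := he ▸ (mp_mem hac).2
      have hne : a ≠ c := fun e => hac.1 (Or.inl e)
      have key : ∀ x, z ∈ sg σ v x → x = i ∨ x = j := by
        intro x ox
        by_contra hc
        push Not at hc
        exact h3 x hc.1 hc.2 ox
      rcases key a oa with rfl | rfl <;> rcases key c oc with rfl | rfl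
      · exact absurd rfl hne
      · exact Or.inl ⟨rfl, rfl⟩
      · exact Or.inr ⟨rfl, rfl⟩
      · exact absurd rfl hne

end Pool.Agent.Lib.MP_ca0971_gt.OT
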