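import Pool.Agent.Lib.MP_ca0971_gt.OT.Defs

/-!
# Project OT: local constancy of `Zh` at tame polygons, definitions

`v` is a tame polygon. `Mt i j`: the closed edges `i`, `j` meet in the projection. `mp i j` = the
meeting point. `Near v v' η`: `v'` is so close to `v` that only the crossings at the coincidences of
`v` can differ. `hyb v v1 v2 S`: the diagram which takes the crossings whose meeting point (for `v`)
is in `S` from `v2` and the other ones from `v1`, with the angles and signs of `v`.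
-/

set_option autoImplicit false

namespace Pool.Agent.Lib.MP_ca0971_gt.OT

open Finset

variable {I : Type} (σ : Equiv.Perm I)

/-- The closed edges `i` and `j` are not adjacent and meet transversally in the projection. -/
def Mt (v : I → E) (i j : I) : Prop :=
  ¬ Adj σ i j ∧ dt (dd σ v i) (dd σ v j) ≠ 0 ∧ 0 ≤ par σ v i j ∧ par σ v i j ≤ 1 ∧
    0 ≤ par σ v j i ∧ par σ v j i ≤ 1

/-- The intersection point of the lines of the edges `i` and `j`. -/
noncomputable def mp (v : I → E) (i j : I) : ℂ := (v i).1 + (par σ v i j : ℂ) * dd σ v i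

/-- Rotation of the edge `i` from `v` to `v'`. -/
noncomputable def rot (v v' : I → E) (i : I) : ℝ := turn (dd σ v' i / dd σ v i)

structure Near (v v' : I → E) (η : ℝ) : Prop where
  n1 : ∀ i j, ¬ Adj σ i j → ¬ Mt σ v i j → ¬ Crs σ v' i j
  n2 : ∀ i j, Mt σ v i j → |par σ v' i j - par σ v i j| < η
  n3 : ∀ i j, Mt σ v i j → 0 < dt (dd σ v i) (dd σ v j) * dt (dd σ v' i) (dd σ v' j)
  n4 : ∀ i j, Mt σ v i j → (ht σ v j i < ht σ v i j ↔ ht σ v' j i < ht σ v' i j)
  n5 : ∀ i, dt (dd σ v i) (dd σ v (σ i)) ≠ 0 →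
    0 < dt (dd σ v i) (dd σ v (σ i)) * dt (dd σ v' i) (dd σ v' (σ i))
  n6 : ∀ i, turn (dd σ v' (σ i) / dd σ v' i) =
    turn (dd σ v (σ i) / dd σ v i) + rot σ v v' (σ i) - rot σ v v' i
  n7 : ∀ i j, Mt σ v i j → turn (dd σ v' j / dd σ v' i) =
    turn (dd σ v j / dd σ v i) + rot σ v v' j - rot σ v v' i

/-- `η` is smaller than half of the gaps between the positions of `v`. -/
structure Gap (v : I → E) (η : ℝ) : Prop where
  pos : 0 < η
  gap : ∀ i j k, Mt σ v i j → Mt σ v i k → par σ v i j ≠ par σ v i k →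
    2 * η ≤ |par σ v i j - par σ v i k|
  lo : ∀ i j, Mt σ v i j → 0 < par σ v i j → η ≤ par σ v i j
  hi : ∀ i j, Mt σ v i j → par σ v i j < 1 → η ≤ 1 - par σ v i j

open Classical in
/-- The hybrid diagram. -/
noncomputable def hyb [Fintype I] (v v1 v2 : I → E) (S : Set ℂ) : Dia I where
  C := univ.filter fun p => Mt σ v p.1 p.2 ∧ ht σ v p.2 p.1 < ht σ v p.1 p.2 ∧
    Crs σ (if mp σ v p.1 p.2 ∈ S then v2 else v1) p.1 p.2
  pos := fun i j => par σ (if mp σ v i j ∈ S then v2 else v1) i j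
  th := fun i => turn (dd σ v (σ i) / dd σ v i)
  ep := fun i j => if 0 < dt (dd σ v i) (dd σ v j) then 1 else -1
  b := fun i j => turn (dd σ v j / dd σ v i)

/-- Everything that is used in the steps: `v` tame, `v1` and `v2` generic and near `v`. -/
structure LocD (v v1 v2 : I → E) (η : ℝ) : Prop where
  tame : Tame σ v
  gap : Gap σ v η
  near1 : Near σ v v1 η
  near2 : Near σ v v2 η
  gen1 : Gen σ v1
  gen2 : Gen σ v2

/-- Interior double point: `z` is on exactly two edges `i`, `j`, in their interiors. -/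
structure SpotX (v : I → E) (z : ℂ) (i j : I) : Prop where
  mt : Mt σ v i j
  hz : mp σ v i j = z
  p1 : 0 < par σ v i j
  p2 : par σ v i j < 1
  p3 : 0 < par σ v j i
  p4 : par σ v j i < 1
  only : ∀ a c, Mt σ v a c → mp σ v a c = z → (a = i ∧ c = j) ∨ (a = j ∧ c = i)

/-- The vertex between the edges `i` and `σ i` is on the interior of the edge `j`. -/
structure SpotV (v : I → E) (z : ℂ) (i j : I) : Prop where
  mt1 : Mt σ v i j
  mt2 : Mt σ v (σ i) j
  z1 : mp σ v i j = z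
  z2 : mp σ v (σ i) j = z
  zv : (v (σ i)).1 = z
  p1 : par σ v i j = 1
  p2 : par σ v (σ i) j = 0
  p3 : 0 < par σ v j i
  p4 : par σ v j i < 1
  p5 : par σ v j (σ i) = par σ v j i
  only : ∀ a c, Mt σ v a c → mp σ v a c = z →
    (a = i ∧ c = j) ∨ (a = j ∧ c = i) ∨ (a = σ i ∧ c = j) ∨ (a = j ∧ c = σ i)

/-- Triple point of the interiors of `t` over `m` over `b`. -/
structure SpotT (v : I → E) (z : ℂ) (t m b : I) : Prop where
  mt : ∀ x y, (x = t ∨ x = m ∨ x = b) → (y = t ∨ y = m ∨ y = b) → x ≠ y → Mt σ v x y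
  ne : t ≠ m ∧ t ≠ b ∧ m ≠ b
  hz : ∀ x y, (x = t ∨ x = m ∨ x = b) → (y = t ∨ y = m ∨ y = b) → x ≠ y → mp σ v x y = z
  p1 : ∀ x y, (x = t ∨ x = m ∨ x = b) → (y = t ∨ y = m ∨ y = b) → x ≠ y →
    0 < par σ v x y ∧ par σ v x y < 1
  h1 : ht σ v m t < ht σ v t m
  h2 : ht σ v b t < ht σ v t b
  h3 : ht σ v b m < ht σ v m b
  only : ∀ a c, Mt σ v a c → mp σ v a c = z → (a = t ∨ a = m ∨ a = b) ∧ (c = t ∨ c = m ∨ c = b)

end Pool.Agent.Lib.MP_ca0971_gt.OT
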