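import Pool.Agent.Lib.MP_ca0971_gt.OT.Loc.Sym

/-!
# Project OT, Loc: the gap
-/

set_option autoImplicit false

namespace Pool.Agent.Lib.MP_ca0971_gt.OT

open Finset Filter Topology

variable {I : Type} [Fintype I] [DecidableEq I] {σ : Equiv.Perm I}

/-- The positive ones among finitely many numbers have a positive lower bound. -/
theorem low_ex {ι : Type*} [Fintype ι] (f : ι → ℝ) : ∃ η : ℝ, 0 < η ∧ ∀ i, 0 < f i → η ≤ f i := by
  classical
  have key : ∀ s : Finset ι, ∃ η : ℝ, 0 < η ∧ ∀ i ∈ s, 0 < f i → η ≤ f i := by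
    intro s
    induction s using Finset.induction_on with
    | empty => exact ⟨1, one_pos, by simp⟩
    | insert a s ha ih =>
      obtain ⟨η, h0, h1⟩ := ih
      by_cases hf : 0 < f a
      · refine ⟨min η (f a), lt_min h0 hf, fun i hi hp => ?_⟩
        rcases Finset.mem_insert.1 hi with rfl | hi
        · exact min_le_right _ _
        · exact (min_le_left _ _).trans (h1 i hi hp)
      · refine ⟨η, h0, fun i hi hp => ?_⟩
        rcases Finset.mem_insert.1 hi with rfl | hi
        · exact absurd hp hf
        · exact h1 i hi hp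
  obtain ⟨η, h0, h1⟩ := key univ
  exact ⟨η, h0, fun i => h1 i (mem_univ i)⟩

/-- Finitely many positive numbers have a positive lower bound. -/
theorem gap_ex (v : I → E) : ∃ η : ℝ, Gap σ v η := by
  obtain ⟨a, a0, a1⟩ := low_ex fun x : I × I × I => |par σ v x.1 x.2.1 - par σ v x.1 x.2.2| / 2
  obtain ⟨b, b0, b1⟩ := low_ex fun x : I × I => par σ v x.1 x.2
  obtain ⟨c, c0, c1⟩ := low_ex fun x : I × I => 1 - par σ v x.1 x.2
  refine ⟨min a (min b c), lt_min a0 (lt_min b0 c0), ?_, ?_, ?_⟩
  · intro i j k _ _ h
    have h1 : 0 < |par σ v i j - par σ v i k| / 2 := by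
      have := abs_pos.2 (sub_ne_zero.2 h)
      linarith
    have h2 := a1 (i, j, k) h1
    have h3 := min_le_left a (min b c)
    dsimp only at h2
    linarith
  · intro i j _ h
    exact ((min_le_right _ _).trans (min_le_left _ _)).trans (b1 (i, j) h)
  · intro i j _ h
    exact ((min_le_right _ _).trans (min_le_right _ _)).trans (c1 (i, j) (by
      dsimp only
      linarith))

end Pool.Agent.Lib.MP_ca0971_gt.OT
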