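import Pool.Agent.Lib.MP_ca0971_gt.OT.Loc.Sym
import Pool.Agent.Lib.MP_ca0971_gt.OT.Ang

/-!
# Project OT, Loc: all v' in a neighbourhood of a tame polygon are near
-/

set_option autoImplicit false

namespace Pool.Agent.Lib.MP_ca0971_gt.OT

open Finset Filter Topology

variable {I : Type} [Fintype I] [DecidableEq I] {σ : Equiv.Perm I}

/-! ### Continuity of the data of a polygon -/

omit [Fintype I] [DecidableEq I] in
private theorem ne_c1 (a : I) : Continuous (fun v : I → E => (v a).1) :=
  (continuous_apply a).fst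

omit [Fintype I] [DecidableEq I] in
private theorem ne_c2 (a : I) : Continuous (fun v : I → E => (v a).2) :=
  (continuous_apply a).snd

omit [Fintype I] [DecidableEq I] in
private theorem ne_dd (i : I) : Continuous (fun v : I → E => dd σ v i) := by
  unfold dd
  exact (ne_c1 (σ i)).sub (ne_c1 i)

omit [Fintype I] [DecidableEq I] in
private theorem ne_dh (i : I) : Continuous (fun v : I → E => dh σ v i) := by
  unfold dh
  exact (ne_c2 (σ i)).sub (ne_c2 i)

private theorem ne_dt {X : Type} [TopologicalSpace X] {f g : X → ℂ} (hf : Continuous f)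
    (hg : Continuous g) : Continuous (fun x => dt (f x) (g x)) := by
  unfold dt
  exact ((Complex.continuous_re.comp hf).mul (Complex.continuous_im.comp hg)).sub
    ((Complex.continuous_im.comp hf).mul (Complex.continuous_re.comp hg))

omit [Fintype I] [DecidableEq I] in
private theorem ne_par (v : I → E) {i j : I} (h : dt (dd σ v i) (dd σ v j) ≠ 0) :
    ContinuousAt (fun v' : I → E => par σ v' i j) v := by
  unfold par
  exact (ne_dt ((ne_c1 j).sub (ne_c1 i)) (ne_dd j)).continuousAt.div
    (ne_dt (ne_dd i) (ne_dd j)).continuousAt h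

omit [Fintype I] [DecidableEq I] in
private theorem ne_ht (v : I → E) {i j : I} (h : dt (dd σ v i) (dd σ v j) ≠ 0) :
    ContinuousAt (fun v' : I → E => ht σ v' i j) v := by
  unfold ht
  exact (ne_c2 i).continuousAt.add ((ne_par v h).mul (ne_dh i).continuousAt)

/-! ### Disjoint edges stay disjoint -/

private theorem ne_seg {A A' B B' : ℂ} {δ : ℝ} (h : dist B A < δ) (h' : dist B' A' < δ) :
    segment ℝ B B' ⊆ Metric.thickening δ (segment ℝ A A') := by
  rintro x ⟨s, t, hs, ht, hst, rfl⟩
  rw [Metric.mem_thickening_iff]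
  refine ⟨s • A + t • A', ⟨s, t, hs, ht, hst, rfl⟩, ?_⟩
  rw [dist_eq_norm] at h h' ⊢
  have e : s • B + t • B' - (s • A + t • A') = s • (B - A) + t • (B' - A') := by
    simp only [smul_sub]
    abel
  rw [e]
  have h1 : ‖s • (B - A) + t • (B' - A')‖ ≤ s * ‖B - A‖ + t * ‖B' - A'‖ := by
    refine (norm_add_le _ _).trans (le_of_eq ?_)
    rw [norm_smul, norm_smul, Real.norm_of_nonneg hs, Real.norm_of_nonneg ht]
  have h2 : s * ‖B - A‖ + t * ‖B' - A'‖ < δ := by
    rcases hs.eq_or_lt with h0 | h0
    · have : t = 1 := by linarith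
      rw [← h0, this]
      linarith
    · have a1 : s * ‖B - A‖ < s * δ := mul_lt_mul_of_pos_left h h0
      have a2 : t * ‖B' - A'‖ ≤ t * δ := mul_le_mul_of_nonneg_left h'.le ht
      have a3 : s * δ + t * δ = δ := by rw [← add_mul, hst, one_mul]
      linarith
  exact lt_of_le_of_lt h1 h2

omit [Fintype I] [DecidableEq I] in
private theorem ne_disj (v : I → E) (i j : I) (hp : Disjoint (sg σ v i) (sg σ v j)) :
    ∀ᶠ v' in 𝓝 v, Disjoint (sg σ v' i) (sg σ v' j) := by
  have hk : IsCompact (sg σ v i) := by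
    unfold sg
    rw [← convexHull_pair]
    exact (Set.toFinite _).isCompact_convexHull (𝕜 := ℝ)
  have hl : IsCompact (sg σ v j) := by
    unfold sg
    rw [← convexHull_pair]
    exact (Set.toFinite _).isCompact_convexHull (𝕜 := ℝ)
  obtain ⟨δ, hδ, hd⟩ := hp.exists_thickenings hk hl.isClosed
  have key : ∀ x : I, ∀ᶠ v' in 𝓝 v, dist (v' x).1 (v x).1 < δ := by
    intro x
    exact ((ne_c1 x).tendsto v) (Metric.ball_mem_nhds _ hδ)
  filter_upwards [key i, key (σ i), key j, key (σ j)] with F h1 h2 h3 h4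
  exact hd.mono (ne_seg h1 h2) (ne_seg h3 h4)

omit [Fintype I] [DecidableEq I] in
private theorem ne_mem (v : I → E) {i j : I} (h0 : 0 ≤ par σ v i j) (h1 : par σ v i j ≤ 1) :
    mp σ v i j ∈ sg σ v i := by
  refine ⟨1 - par σ v i j, par σ v i j, by linarith, h0, by ring, ?_⟩
  simp only [mp, dd, Complex.real_smul]
  push_cast
  ring

omit [Fintype I] [DecidableEq I] in
private theorem ne_crs {v : I → E} {i j : I} (hd : Disjoint (sg σ v i) (sg σ v j)) :
    ¬ Crs σ v i j := by
  intro h
  refine Set.disjoint_left.1 hd (ne_mem v h.2.2.1.le h.2.2.2.1.le) ?_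
  rw [mp_symm v h.2.1]
  exact ne_mem v h.2.2.2.2.1.le h.2.2.2.2.2.le

omit [Fintype I] [DecidableEq I] in
private theorem ne_prod (v : I → E) (i j : I) (h : dt (dd σ v i) (dd σ v j) ≠ 0) :
    ∀ᶠ v' in 𝓝 v, 0 < dt (dd σ v i) (dd σ v j) * dt (dd σ v' i) (dd σ v' j) := by
  have hc : ContinuousAt (fun v' : I → E => dt (dd σ v i) (dd σ v j) * dt (dd σ v' i) (dd σ v' j)) v :=
    (continuous_const.mul (ne_dt (ne_dd i) (ne_dd j))).continuousAt
  exact continuousAt_const.eventually_lt hc (mul_self_pos.2 h)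

omit [Fintype I] [DecidableEq I] in
private theorem ne_n1 {v : I → E} (hT : Tame σ v) (i j : I) (ha : ¬ Adj σ i j)
    (hm : ¬ Mt σ v i j) : ∀ᶠ v' in 𝓝 v, ¬ Crs σ v' i j := by
  by_cases hd : dt (dd σ v i) (dd σ v j) = 0
  · filter_upwards [ne_disj v i j (hT.par0 i j ha hd)] with v' h
    exact ne_crs h
  · have hd' : dt (dd σ v j) (dd σ v i) ≠ 0 := dt_ne_symm hd
    have c1 := ne_par v hd
    have c2 := ne_par v hd'
    by_cases p1 : 0 ≤ par σ v i j
    · by_cases p2 : par σ v i j ≤ 1
      · by_cases p3 : 0 ≤ par σ v j i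
        · by_cases p4 : par σ v j i ≤ 1
          · exact absurd ⟨ha, hd, p1, p2, p3, p4⟩ hm
          · filter_upwards [continuousAt_const.eventually_lt c2 (not_le.1 p4)] with v' h hc
            exact absurd hc.2.2.2.2.2 (not_lt.2 (le_of_lt h))
        · filter_upwards [c2.eventually_lt continuousAt_const (not_le.1 p3)] with v' h hc
          exact absurd hc.2.2.2.2.1 (not_lt.2 (le_of_lt h))
      · filter_upwards [continuousAt_const.eventually_lt c1 (not_le.1 p2)] with v' h hc
        exact absurd hc.2.2.2.1 (not_lt.2 (le_of_lt h))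
    · filter_upwards [c1.eventually_lt continuousAt_const (not_le.1 p1)] with v' h hc
      exact absurd hc.2.2.1 (not_lt.2 (le_of_lt h))

omit [Fintype I] [DecidableEq I] in
private theorem ne_n4 {v : I → E} (hT : Tame σ v) (i j : I) (hm : Mt σ v i j) :
    ∀ᶠ v' in 𝓝 v, (ht σ v j i < ht σ v i j ↔ ht σ v' j i < ht σ v' i j) := by
  have c1 := ne_ht v hm.2.1
  have c2 := ne_ht v (dt_ne_symm hm.2.1)
  have hne := hT.hgt i j hm.1 hm.2.1 hm.2.2.1 hm.2.2.2.1 hm.2.2.2.2.1 hm.2.2.2.2.2
  rcases lt_or_gt_of_ne hne with h | h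
  · filter_upwards [c1.eventually_lt c2 h] with v' h'
    exact ⟨fun k => absurd k (not_lt.2 h.le), fun k => absurd k (not_lt.2 h'.le)⟩
  · filter_upwards [c2.eventually_lt c1 h] with v' h'
    exact ⟨fun _ => h', fun _ => h⟩

/-- n1: if dt (d_i) (d_j) ≠ 0 at v, a parameter outside [0,1] stays outside (continuity of par); if
dt = 0 then the closed segments are disjoint compact sets (Tame.par0), so they have positive distance
and stay disjoint, while a crossing gives a common point. n2, n3: continuity. n4: Tame.hgt and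
continuity of ht (for i, j and j, i; ht i j ≠ ht j i at v). n5: continuity. -/
theorem near_ev1 {v : I → E} (hT : Tame σ v) {η : ℝ} (hη : 0 < η) : ∀ᶠ v' in 𝓝 v,
    (∀ i j, ¬ Adj σ i j → ¬ Mt σ v i j → ¬ Crs σ v' i j) ∧
    (∀ i j, Mt σ v i j → |par σ v' i j - par σ v i j| < η) ∧
    (∀ i j, Mt σ v i j → 0 < dt (dd σ v i) (dd σ v j) * dt (dd σ v' i) (dd σ v' j)) ∧
    (∀ i j, Mt σ v i j → (ht σ v j i < ht σ v i j ↔ ht σ v' j i < ht σ v' i j)) ∧
    (∀ i, dt (dd σ v i) (dd σ v (σ i)) ≠ 0 →
      0 < dt (dd σ v i) (dd σ v (σ i)) * dt (dd σ v' i) (dd σ v' (σ i))) := by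
  refine Filter.Eventually.and ?_ (Filter.Eventually.and ?_ (Filter.Eventually.and ?_
    (Filter.Eventually.and ?_ ?_)))
  · refine Filter.eventually_all.2 fun i => Filter.eventually_all.2 fun j => ?_
    by_cases ha : Adj σ i j
    · exact Filter.Eventually.of_forall fun v' h => absurd ha h
    · by_cases hm : Mt σ v i j
      · exact Filter.Eventually.of_forall fun v' _ h => absurd hm h
      · filter_upwards [ne_n1 hT i j ha hm] with v' h _ _
        exact h
  · refine Filter.eventually_all.2 fun i => Filter.eventually_all.2 fun j => ?_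
    by_cases hm : Mt σ v i j
    · have := Metric.tendsto_nhds.1 (ne_par v hm.2.1) η hη
      filter_upwards [this] with v' h _
      rwa [Real.dist_eq] at h
    · exact Filter.Eventually.of_forall fun v' h => absurd h hm
  · refine Filter.eventually_all.2 fun i => Filter.eventually_all.2 fun j => ?_
    by_cases hm : Mt σ v i j
    · filter_upwards [ne_prod v i j hm.2.1] with v' h _
      exact h
    · exact Filter.Eventually.of_forall fun v' h => absurd h hm
  · refine Filter.eventually_all.2 fun i => Filter.eventually_all.2 fun j => ?_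
    by_cases hm : Mt σ v i j
    · filter_upwards [ne_n4 hT i j hm] with v' h _
      exact h
    · exact Filter.Eventually.of_forall fun v' h => absurd h hm
  · refine Filter.eventually_all.2 fun i => ?_
    by_cases hd : dt (dd σ v i) (dd σ v (σ i)) = 0
    · exact Filter.Eventually.of_forall fun v' h => absurd hd h
    · filter_upwards [ne_prod v i (σ i) hd] with v' h _
      exact h

omit [Fintype I] [DecidableEq I] in
private theorem ne_turn (v : I → E) (i j : I) (h : dd σ v j / dd σ v i ∈ Complex.slitPlane) :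
    ∀ᶠ v' in 𝓝 v, turn (dd σ v' j / dd σ v' i) =
      turn (dd σ v j / dd σ v i) + rot σ v v' j - rot σ v v' i := by
  have hc : Tendsto (fun v' : I → E => (dd σ v' i, dd σ v' j)) (𝓝 v)
      (𝓝 (dd σ v i, dd σ v j)) := ((ne_dd i).prodMk (ne_dd j)).tendsto v
  exact hc.eventually (turn_gauge h)

private theorem ne_slit {x z : ℂ} (h : dt x z ≠ 0) : z / x ∈ Complex.slitPlane := by
  have hx : x ≠ 0 := by
    rintro rfl
    simp [dt] at h
  rw [Complex.mem_slitPlane_iff]
  right
  intro h0
  apply h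
  rw [Complex.div_im] at h0
  have h1 : Complex.normSq x ≠ 0 := by simpa using hx
  unfold dt
  field_simp at h0
  linarith

/-- n6, n7 from turn_gauge (for n7: dt ≠ 0 implies d_j / d_i in the slit plane). -/
theorem near_ev2 {v : I → E} (hT : Tame σ v) : ∀ᶠ v' in 𝓝 v,
    (∀ i, turn (dd σ v' (σ i) / dd σ v' i) =
      turn (dd σ v (σ i) / dd σ v i) + rot σ v v' (σ i) - rot σ v v' i) ∧
    (∀ i j, Mt σ v i j → turn (dd σ v' j / dd σ v' i) =
      turn (dd σ v j / dd σ v i) + rot σ v v' j - rot σ v v' i) := by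
  refine Filter.Eventually.and ?_ ?_
  · exact Filter.eventually_all.2 fun i => ne_turn v i (σ i) (hT.slit i)
  · refine Filter.eventually_all.2 fun i => Filter.eventually_all.2 fun j => ?_
    by_cases hm : Mt σ v i j
    · filter_upwards [ne_turn v i j (ne_slit hm.2.1)] with v' h _
      exact h
    · exact Filter.Eventually.of_forall fun v' h => absurd h hm

theorem near_ev {v : I → E} (hT : Tame σ v) {η : ℝ} (hη : 0 < η) : ∀ᶠ v' in 𝓝 v, Near σ v v' η := by
  filter_upwards [near_ev1 hT hη, near_ev2 hT] with v' h1 h2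
  exact ⟨h1.1, h1.2.1, h1.2.2.1, h1.2.2.2.1, h1.2.2.2.2, h2.1, h2.2⟩

end Pool.Agent.Lib.MP_ca0971_gt.OT
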