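import Pool.Agent.Lib.MP_ca0971_gt.OT.Loc.Ok
import Pool.Agent.Lib.MP_ca0971_gt.OT.Loc.TSpot
import Pool.Agent.Lib.MP_ca0971_gt.OT.Ang
import Pool.Agent.Lib.MP_ca0971_gt.OT.DiaS

/-!
# Project OT, Loc: step at a triple point

s1, s2 from tspot for v1, v2. s1 = s2: Dia.Z_ord; s1 = - s2: Dia.Z_R3 with turn_three
(x = d_t, y = d_m, z = d_b). The crossing set does not change, the writhe neither.
-/

set_option autoImplicit false

namespace Pool.Agent.Lib.MP_ca0971_gt.OT

open Finset Filter Topology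

variable {I : Type} [Fintype I] [DecidableEq I] {σ : Equiv.Perm I}

omit [DecidableEq I] in
/-- Away from the new spot the positions do not change. -/
theorem stept_pos {v v1 v2 : I → E} {S : Set ℂ} {z : ℂ} {i j : I} (h : mp σ v i j ≠ z) :
    (hyb σ v v1 v2 (insert z S)).pos i j = (hyb σ v v1 v2 S).pos i j := by
  by_cases hs : mp σ v i j ∈ S
  · rw [hyb_pos_mem hs, hyb_pos_mem (Set.mem_insert_of_mem _ hs)]
  · rw [hyb_pos_not hs, hyb_pos_not (fun h' => (Set.mem_insert_iff.1 h').elim h hs)]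

/-- Order of the positions on one of the three edges. -/
theorem stept_ord {p q p' q' A : ℝ} (hne : p ≠ q) (hne' : p' ≠ q') (h : p < q ↔ 0 < A)
    (h' : p' < q' ↔ 0 < A) : (p < q ↔ p' < q') ∧ (q < p ↔ q' < p') := by
  refine ⟨h.trans h'.symm, ?_⟩
  constructor
  · intro k
    have : ¬ p' < q' := fun k' => lt_asymm k (h.2 (h'.1 k'))
    exact lt_of_le_of_ne (not_lt.1 this) hne'.symm
  · intro k
    have : ¬ p < q := fun k' => lt_asymm k (h'.2 (h.1 k'))
    exact lt_of_le_of_ne (not_lt.1 this) hne.symm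

theorem step_T {v v1 v2 : I → E} {η : ℝ} (hL : LocD σ v v1 v2 η) {z : ℂ} {t m b : I}
    (hS : SpotT σ v z t m b) (S : Set ℂ) (hz : z ∉ S) (N : ℕ) :
    (hyb σ v v1 v2 (insert z S)).Z σ N = (hyb σ v v1 v2 S).Z σ N ∧
      (hyb σ v v1 v2 (insert z S)).w = (hyb σ v v1 v2 S).w := by
  obtain ⟨c1, s1, hs1, t1, m1, b1⟩ := tspot hL.gap hL.near1 hL.gen1 hS
  obtain ⟨c2, s2, hs2, t2, m2, b2⟩ := tspot hL.gap hL.near2 hL.gen2 hS
  obtain ⟨ntm, ntb, nmb⟩ := hS.ne
  have hC : (hyb σ v v1 v2 (insert z S)).C = (hyb σ v v1 v2 S).C := by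
    ext ⟨a, c⟩
    rw [hyb_memC, hyb_memC]
    by_cases hm : Mt σ v a c
    · by_cases hz' : mp σ v a c = z
      · obtain ⟨ha, hc⟩ := hS.only a c hm hz'
        have hac : a ≠ c := fun h => hm.1 (Or.inl h)
        simp [c1 a c ha hc hac, c2 a c ha hc hac]
      · simp [Set.mem_insert_iff, hz']
    · simp [hm]
  -- positions at the spot
  have pS : ∀ x y, (x = t ∨ x = m ∨ x = b) → (y = t ∨ y = m ∨ y = b) → x ≠ y →
      (hyb σ v v1 v2 S).pos x y = par σ v1 x y := fun x y hx hy hxy =>
    hyb_pos_not (by rw [hS.hz x y hx hy hxy]; exact hz)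
  have pS' : ∀ x y, (x = t ∨ x = m ∨ x = b) → (y = t ∨ y = m ∨ y = b) → x ≠ y →
      (hyb σ v v1 v2 (insert z S)).pos x y = par σ v2 x y := fun x y hx hy hxy =>
    hyb_pos_mem (by rw [hS.hz x y hx hy hxy]; exact Set.mem_insert _ _)
  have Tt : t = t ∨ t = m ∨ t = b := Or.inl rfl
  have Tm : m = t ∨ m = m ∨ m = b := Or.inr (Or.inl rfl)
  have Tb : b = t ∨ b = m ∨ b = b := Or.inr (Or.inr rfl)
  have hnz : ∀ a, (∃ c, Mt σ v a c) → dd σ v a ≠ 0 := by
    rintro a ⟨c, hm⟩ h0
    exact hm.2.1 (by simp [h0, dt])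
  refine ⟨?_, ?_⟩
  · by_cases hss : s1 = s2
    · -- the order is the same
      subst hss
      have n1 : ∀ x y w, (x = t ∨ x = m ∨ x = b) → (y = t ∨ y = m ∨ y = b) →
          (w = t ∨ w = m ∨ w = b) → x ≠ y → x ≠ w → y ≠ w →
          par σ v1 x y ≠ par σ v1 x w ∧ par σ v2 x y ≠ par σ v2 x w := by
        intro x y w hx hy hw hxy hxw hyw
        exact ⟨fun h => hyw (hL.gen1.trp x y w (c1 x y hx hy hxy) (c1 x w hx hw hxw) h),
          fun h => hyw (hL.gen2.trp x y w (c2 x y hx hy hxy) (c2 x w hx hw hxw) h)⟩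
      have ot := stept_ord (n1 t b m Tt Tb Tm ntb ntm nmb.symm).1
        (n1 t b m Tt Tb Tm ntb ntm nmb.symm).2 t1 t2
      have om := stept_ord (n1 m b t Tm Tb Tt nmb ntm.symm ntb.symm).1
        (n1 m b t Tm Tb Tt nmb ntm.symm ntb.symm).2 m1 m2
      have ob := stept_ord (n1 b m t Tb Tm Tt nmb.symm ntb.symm ntm.symm).1
        (n1 b m t Tb Tm Tt nmb.symm ntb.symm ntm.symm).2 b1 b2
      have key : ∀ x y w, (x = t ∨ x = m ∨ x = b) → (y = t ∨ y = m ∨ y = b) →
          (w = t ∨ w = m ∨ w = b) → x ≠ y → x ≠ w →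
          (par σ v1 x y < par σ v1 x w ↔ par σ v2 x y < par σ v2 x w) := by
        intro x y w hx hy hw hxy hxw
        rcases hx with rfl | rfl | rfl <;> rcases hy with rfl | rfl | rfl <;>
          rcases hw with rfl | rfl | rfl
        all_goals first
          | exact absurd rfl hxy
          | exact absurd rfl hxw
          | exact ⟨fun h => absurd h (lt_irrefl _), fun h => absurd h (lt_irrefl _)⟩
          | exact ot.1
          | exact ot.2
          | exact om.1
          | exact om.2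
          | exact ob.1
          | exact ob.2
      refine Dia.Z_ord σ N _ _ hC rfl (fun _ _ _ => rfl) (fun _ _ _ => rfl) ?_
      intro a c d hc hd
      have mc := hyb_mt hc
      have md := hyb_mt hd
      rcases lt_trichotomy (par σ v a c) (par σ v a d) with hl | he | hl
      · exact ⟨fun _ => hyb_lt hL _ mc md hl, fun _ => hyb_lt hL _ mc md hl⟩
      · have hm := (par_eq_iff v (hnz a ⟨c, mc⟩)).1 he
        by_cases hz' : mp σ v a c = z
        · have hz'' : mp σ v a d = z := hm ▸ hz'
          obtain ⟨ha, hcc⟩ := hS.only a c mc hz'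
          obtain ⟨-, hdd⟩ := hS.only a d md hz''
          have hac : a ≠ c := fun h => mc.1 (Or.inl h)
          have had : a ≠ d := fun h => md.1 (Or.inl h)
          rw [pS a c ha hcc hac, pS a d ha hdd had, pS' a c ha hcc hac, pS' a d ha hdd had]
          exact key a c d ha hcc hdd hac had
        · have hz'' : mp σ v a d ≠ z := hm ▸ hz'
          rw [stept_pos hz', stept_pos hz'']
      · exact ⟨fun h => absurd h (hyb_lt hL _ md mc hl).asymm,
          fun h => absurd h (hyb_lt hL _ md mc hl).asymm⟩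
    · -- third Reidemeister move
      have hs12 : s2 = -s1 := by
        rcases hs1 with h | h <;> rcases hs2 with h' | h'
        · exact absurd (h.trans h'.symm) hss
        · rw [h, h']
        · rw [h, h', neg_neg]
        · exact absurd (h.trans h'.symm) hss
      subst hs12
      have neg : ∀ A B : ℝ, 0 < -s1 * A * B ↔ s1 * A * B < 0 := by
        intro A B
        constructor <;> intro h <;> linarith
      have Mtm := hS.mt t m Tt Tm ntm
      have Mtb := hS.mt t b Tt Tb ntb
      have Mmb := hS.mt m b Tm Tb nmb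
      refine Dia.Z_R3 σ N (hyb σ v v1 v2 S) (hyb σ v v1 v2 (insert z S)) (hyb_ok hL S)
        (hyb_ok hL _) t m b hC rfl (fun _ _ _ => rfl) (fun _ _ _ => rfl) ?_ ?_ ?_ ?_ ?_ s1 hs1
        ?_ ?_ ?_ ?_ ?_ ?_ ?_
      · exact hyb_memC.2 ⟨Mtm, hS.h1, fun h => absurd (by rwa [hS.hz t m Tt Tm ntm] at h) hz,
          fun _ => c1 t m Tt Tm ntm⟩
      · exact hyb_memC.2 ⟨Mtb, hS.h2, fun h => absurd (by rwa [hS.hz t b Tt Tb ntb] at h) hz,
          fun _ => c1 t b Tt Tb ntb⟩
      · exact hyb_memC.2 ⟨Mmb, hS.h3, fun h => absurd (by rwa [hS.hz m b Tm Tb nmb] at h) hz,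
          fun _ => c1 m b Tm Tb nmb⟩
      · intro a l hp hal
        exact stept_pos fun h => hal (hS.only a l (hyb_mt hp) h)
      · intro a l x y ha hp hlt hlm hlb hx hy hxa hya
        have ml := hyb_mt hp
        have mx := hS.mt a x ha hx hxa.symm
        have my := hS.mt a y ha hy hya.symm
        have hl : mp σ v a l ≠ z := by
          intro h
          rcases (hS.only a l ml h).2 with h | h | h
          · exact hlt h
          · exact hlm h
          · exact hlb h
        have da := hnz a ⟨l, ml⟩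
        have exy : par σ v a x = par σ v a y := by
          rw [par_eq_iff v da, hS.hz a x ha hx hxa.symm, hS.hz a y ha hy hya.symm]
        have nl : par σ v a l ≠ par σ v a x := by
          intro h
          rw [par_eq_iff v da, hS.hz a x ha hx hxa.symm] at h
          exact hl h
        rw [← stept_pos (v1 := v1) (v2 := v2) (S := S) hl]
        rcases nl.lt_or_gt with h | h
        · refine ⟨fun _ => hyb_lt hL _ ml my (exy ▸ h), fun _ => ?_⟩
          rw [stept_pos hl]
          exact hyb_lt hL _ ml mx h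
        · constructor
          · intro k
            rw [stept_pos hl] at k
            exact absurd k (hyb_lt hL _ mx ml h).asymm
          · intro k
            exact absurd k (hyb_lt hL _ my ml (exy ▸ h)).asymm
      · rw [pS t b Tt Tb ntb, pS t m Tt Tm ntm]
        exact t1
      · rw [pS m b Tm Tb nmb, pS m t Tm Tt ntm.symm]
        exact m1
      · rw [pS b m Tb Tm nmb.symm, pS b t Tb Tt ntb.symm]
        exact b1
      · rw [pS' t b Tt Tb ntb, pS' t m Tt Tm ntm, t2]
        exact neg _ _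
      · rw [pS' m b Tm Tb nmb, pS' m t Tm Tt ntm.symm, m2]
        exact neg _ _
      · rw [pS' b m Tb Tm nmb.symm, pS' b t Tb Tt ntb.symm, b2]
        exact neg _ _
      · exact turn_three Mtm.2.1 Mtb.2.1 Mmb.2.1
  · unfold Dia.w
    rw [hC]
    rfl

end Pool.Agent.Lib.MP_ca0971_gt.OT
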