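import Pool.Agent.Lib.MP_ca0971_gt.OT.Loc.Sym

/-!
# Project OT, Loc: the crossings near a vertex on an edge
-/

set_option autoImplicit false

namespace Pool.Agent.Lib.MP_ca0971_gt.OT

open Finset Filter Topology

variable {I : Type} [Fintype I] [DecidableEq I] {σ : Equiv.Perm I}

theorem sq_pos_of_ne' {a : ℝ} (h : a ≠ 0) : 0 < a * a := by
  rcases lt_or_gt_of_ne h with h | h
  · exact mul_pos_of_neg_of_neg h h
  · exact mul_pos h h

/-- Two numbers with the same sign can be exchanged as factors. -/
theorem pos_mul_congr {f a b : ℝ} (h : 0 < a * b) : 0 < f * a ↔ 0 < f * b := by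
  rcases lt_or_gt_of_ne (left_ne_zero_of_mul h.ne') with ha | ha
  · have hb : b < 0 := by
      by_contra hb
      push Not at hb
      have := mul_nonpos_of_nonpos_of_nonneg ha.le hb
      linarith
    constructor
    · intro hf
      exact mul_pos_of_neg_of_neg (by
        by_contra hc
        push Not at hc
        have := mul_nonpos_of_nonneg_of_nonpos hc ha.le
        linarith) hb
    · intro hf
      exact mul_pos_of_neg_of_neg (by
        by_contra hc
        push Not at hc
        have := mul_nonpos_of_nonneg_of_nonpos hc hb.le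
        linarith) ha
  · have hb : 0 < b := by
      by_contra hb
      push Not at hb
      have := mul_nonpos_of_nonneg_of_nonpos ha.le hb
      linarith
    constructor
    · intro hf
      exact mul_pos (pos_of_mul_pos_left hf ha.le) hb
    · intro hf
      exact mul_pos (pos_of_mul_pos_left hf hb.le) ha

theorem neg_mul_congr {f a b : ℝ} (h : 0 < a * b) : f * a < 0 ↔ f * b < 0 := by
  have := pos_mul_congr (f := -f) h
  constructor
  · intro hf
    have := this.1 (by linarith)
    linarith
  · intro hf
    have := this.2 (by linarith)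
    linarith

omit [Fintype I] [DecidableEq I] in
/-- The data of a meeting for a near polygon. -/
theorem Near.bds {v v' : I → E} {η : ℝ} (hg : Gap σ v η) (hN : Near σ v v' η) {i j : I}
    (h : Mt σ v i j) : (0 < par σ v i j → 0 < par σ v' i j) ∧
      (par σ v i j < 1 → par σ v' i j < 1) ∧ dt (dd σ v' i) (dd σ v' j) ≠ 0 := by
  have h2 := abs_lt.1 (hN.n2 i j h)
  have h3 := hN.n3 i j h
  refine ⟨fun hp => ?_, fun hp => ?_, right_ne_zero_of_mul h3.ne'⟩
  · have := hg.lo i j h hp
    linarith
  · have := hg.hi i j h hp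
    linarith

omit [Fintype I] [DecidableEq I] in
/-- Two consecutive edges on different sides of a third one are not parallel. -/
theorem dt_ne_of_slit {v : I → E} {i j : I} (hs : dd σ v (σ i) / dd σ v i ∈ Complex.slitPlane)
    (h : dt (dd σ v j) (dd σ v i) * dt (dd σ v j) (dd σ v (σ i)) < 0) :
    dt (dd σ v i) (dd σ v (σ i)) ≠ 0 := by
  intro h0
  set x := dd σ v i with hx
  set y := dd σ v (σ i) with hy
  set w := dd σ v j with hw
  have hx0 : x ≠ 0 := by
    intro e
    rw [e] at h
    unfold dt at h
    simp at h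
  have hn : 0 < Complex.normSq x := Complex.normSq_pos.2 hx0
  have him : (y / x).im = 0 := by
    rw [Complex.div_im]
    have : y.im * x.re - y.re * x.im = 0 := by
      unfold dt at h0
      linarith
    have e : y.im * x.re / Complex.normSq x - y.re * x.im / Complex.normSq x =
        (y.im * x.re - y.re * x.im) / Complex.normSq x := by ring
    rw [e, this, zero_div]
  have hre : 0 < (y / x).re := by
    rcases hs with h | h
    · exact h
    · exact absurd him h
  have hy' : y = ((y / x).re : ℂ) * x := by
    have e : (y / x) = (((y / x).re : ℝ) : ℂ) := by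
      apply Complex.ext
      · simp
      · simp only [Complex.ofReal_im]
        exact him
    rw [← e]
    field_simp
  have e1 : dt w y = (y / x).re * dt w x := by
    conv_lhs => rw [hy']
    unfold dt
    simp
    ring
  rw [e1] at h
  have : 0 ≤ dt w x * dt w x := mul_self_nonneg _
  have h2 : dt w x * ((y / x).re * dt w x) = (y / x).re * (dt w x * dt w x) := by ring
  rw [h2] at h
  have := mul_nonneg hre.le this
  linarith

omit [Fintype I] [DecidableEq I] in
/-- f = dt d_j (p_(σ i) - p_j) for v'. f ≠ 0 by Gen.ver (the parameter of the projection to the line of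
j is near par v j i in the open interval, so p_(σ i) not in the closed edge means not on the line; use
side_end: f = 0 iff par' i j = 1, and then p_(σ i) = mp' i j with par' j i in (0,1)). -/
theorem vspot {v v' : I → E} {η : ℝ} {z : ℂ} {i j : I} (hT : Tame σ v) (hg : Gap σ v η)
    (hN : Near σ v v' η) (hG : Gen σ v') (hS : SpotV σ v z i j) :
    ∃ f : ℝ, f ≠ 0 ∧
      (Crs σ v' i j ↔ 0 < f * dt (dd σ v j) (dd σ v i)) ∧
      (Crs σ v' (σ i) j ↔ f * dt (dd σ v j) (dd σ v (σ i)) < 0) ∧
      (dt (dd σ v j) (dd σ v i) * dt (dd σ v j) (dd σ v (σ i)) < 0 →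
        (par σ v' j i < par σ v' j (σ i) ↔ f * dt (dd σ v i) (dd σ v (σ i)) < 0)) := by
  have m1 := hS.mt1
  have m2 := hS.mt2
  have m3 := m1.symm'
  have m4 := m2.symm'
  obtain ⟨a1, -, a3⟩ := hN.bds hg m1
  obtain ⟨-, b2, b3⟩ := hN.bds hg m2
  obtain ⟨c1, c2, c3⟩ := hN.bds hg m3
  obtain ⟨d1, d2, d3⟩ := hN.bds hg m4
  have a1 := a1 (by rw [hS.p1]; norm_num)
  have b2 := b2 (by rw [hS.p2]; norm_num)
  have c1 := c1 hS.p3
  have c2 := c2 hS.p4
  have d1 := d1 (by rw [hS.p5]; exact hS.p3)
  have d2 := d2 (by rw [hS.p5]; exact hS.p4)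
  have s1 := hN.n3 j i m3
  have s2 := hN.n3 j (σ i) m4
  have e1 := side_end (σ := σ) v' a3
  have e2 := side_start (σ := σ) v' b3
  set f := dt (dd σ v' j) ((v' (σ i)).1 - (v' j).1) with hf
  have hnadj := m1.1
  have hf0 : f ≠ 0 := by
    intro h0
    rw [h0] at e1
    have h1 : par σ v' i j = 1 := by
      rcases mul_eq_zero.1 e1.symm with h | h
      · linarith
      · exact absurd h c3
    have h2 := mp_symm (σ := σ) v' a3
    unfold mp at h2
    rw [h1] at h2
    have h3 : (v' (σ i)).1 = (v' j).1 + (par σ v' j i : ℂ) * dd σ v' j := by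
      rw [← h2]
      unfold dd
      simp
    refine hG.ver (σ i) j ?_ ?_ ?_
    · intro h
      exact hnadj (Or.inr (Or.inl h))
    · intro h
      exact hnadj (Or.inl (σ.injective h).symm)
    · unfold sg
      rw [h3]
      refine ⟨1 - par σ v' j i, par σ v' j i, by linarith, c1.le, by ring, ?_⟩
      unfold dd
      simp only [Complex.real_smul, Complex.ofReal_sub, Complex.ofReal_one]
      ring
  refine ⟨f, hf0, ?_, ?_, ?_⟩
  · have h1 : f * dt (dd σ v' j) (dd σ v' i) = (1 - par σ v' i j) *
        (dt (dd σ v' j) (dd σ v' i) * dt (dd σ v' j) (dd σ v' i)) := by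
      rw [e1]
      ring
    have h2 : 0 < dt (dd σ v' j) (dd σ v' i) * dt (dd σ v' j) (dd σ v' i) := sq_pos_of_ne' c3
    rw [pos_mul_congr s1, h1]
    constructor
    · intro h
      exact mul_pos (by linarith [h.2.2.2.1]) h2
    · intro h
      have := pos_of_mul_pos_left h h2.le
      exact ⟨hnadj, a3, a1, by linarith, c1, c2⟩
  · have h1 : f * dt (dd σ v' j) (dd σ v' (σ i)) = -(par σ v' (σ i) j *
        (dt (dd σ v' j) (dd σ v' (σ i)) * dt (dd σ v' j) (dd σ v' (σ i)))) := by
      rw [e2]
      ring
    have h2 : 0 < dt (dd σ v' j) (dd σ v' (σ i)) * dt (dd σ v' j) (dd σ v' (σ i)) :=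
      sq_pos_of_ne' d3
    rw [neg_mul_congr s2, h1]
    constructor
    · intro h
      have := mul_pos h.2.2.1 h2
      linarith
    · intro h
      have := pos_of_mul_pos_left (by linarith : 0 < par σ v' (σ i) j *
        (dt (dd σ v' j) (dd σ v' (σ i)) * dt (dd σ v' j) (dd σ v' (σ i)))) h2.le
      exact ⟨m2.1, b3, this, b2, d1, d2⟩
  · intro hneg
    have hne := dt_ne_of_slit (hT.slit i) hneg
    have s3 := hN.n5 i hne
    rw [neg_mul_congr s3]
    have e3 := par_diff (σ := σ) v' a3 b3
    rw [← hf] at e3
    have hneg' : dt (dd σ v' j) (dd σ v' i) * dt (dd σ v' j) (dd σ v' (σ i)) < 0 := by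
      rw [mul_comm, ← neg_mul_congr s1, mul_comm, ← neg_mul_congr s2]
      exact hneg
    constructor
    · intro h
      rw [← e3]
      exact mul_neg_of_pos_of_neg (by linarith) hneg'
    · intro h
      rw [← e3] at h
      by_contra hc
      push Not at hc
      have := mul_nonneg_of_nonpos_of_nonpos (by linarith : par σ v' j (σ i) - par σ v' j i ≤ 0)
        hneg'.le
      linarith

end Pool.Agent.Lib.MP_ca0971_gt.OT
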