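import Pool.Agent.Lib.MP_ca0971_gt.OT.Loc.Ok
import Pool.Agent.Lib.MP_ca0971_gt.OT.Loc.VSpot
import Pool.Agent.Lib.MP_ca0971_gt.OT.Ang
import Pool.Agent.Lib.MP_ca0971_gt.OT.DiaS

/-!
# Project OT, Loc: step at a vertex on an edge

Let D = hyb S, D' = hyb (insert z S), f1, f2 from vspot for v1, v2. Both height comparisons are the
same (ht v i j = height of the vertex = ht v (σ i) j; ht v j i = ht v j (σ i)), so the vertex strand is
over or under j for both edges. The signs: ep i j = sg1 (dt d_i d_j).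

* f1 f2 > 0: same crossings, same order on j: Dia.Z_ord.
* dt d_j d_i * dt d_j d_(σ i) > 0 (transversal), f1 f2 < 0: one of the diagrams has the crossing with
  i, the other one the crossing with σ i: Dia.Z_slide_over / under with turn_same.
* dt d_j d_i * dt d_j d_(σ i) < 0 (touching), f1 f2 < 0: one has both, the other none:
  Dia.Z_R2_over / under with turn_opp (over: x = d_i, y = d_(σ i), z = d_j; under: take negatives with
  turn_neg).
* positions: last on i, first on σ i because par v i j = 1, par v (σ i) j = 0 and no other meeting has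
  these positions (SpotV.only + par_eq_iff), hyb_lt; on j all other meetings have a different position
  for v (only), so they are on the same side of both.
-/

set_option autoImplicit false

namespace Pool.Agent.Lib.MP_ca0971_gt.OT

open Finset Filter Topology

variable {I : Type} [Fintype I] [DecidableEq I] {σ : Equiv.Perm I}

/-- Two sets of spots which differ only at `z`, and the polygons which are used there. -/
structure StV (σ : Equiv.Perm I) (v v1 v2 : I → E) (z : ℂ) (S1 S2 : Set ℂ) (u1 u2 : I → E) :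
    Prop where
  p1 : ∀ a c, mp σ v a c = z → (hyb σ v v1 v2 S1).pos a c = par σ u1 a c
  p2 : ∀ a c, mp σ v a c = z → (hyb σ v v1 v2 S2).pos a c = par σ u2 a c
  c1 : ∀ a c, mp σ v a c = z → ((a, c) ∈ (hyb σ v v1 v2 S1).C ↔
    Mt σ v a c ∧ ht σ v c a < ht σ v a c ∧ Crs σ u1 a c)
  c2 : ∀ a c, mp σ v a c = z → ((a, c) ∈ (hyb σ v v1 v2 S2).C ↔
    Mt σ v a c ∧ ht σ v c a < ht σ v a c ∧ Crs σ u2 a c)
  pos : ∀ a c, mp σ v a c ≠ z → (hyb σ v v1 v2 S2).pos a c = (hyb σ v v1 v2 S1).pos a c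
  mem : ∀ a c, mp σ v a c ≠ z → ((a, c) ∈ (hyb σ v v1 v2 S2).C ↔ (a, c) ∈ (hyb σ v v1 v2 S1).C)

section

variable {v v1 v2 : I → E} {z : ℂ} {S1 S2 : Set ℂ} {u1 u2 : I → E} {i j : I}

omit [DecidableEq I] in
theorem StV.symm (h : StV σ v v1 v2 z S1 S2 u1 u2) : StV σ v v1 v2 z S2 S1 u2 u1 :=
  ⟨h.p2, h.p1, h.c2, h.c1, fun a c hz => (h.pos a c hz).symm, fun a c hz => (h.mem a c hz).symm⟩

omit [DecidableEq I] in
theorem stV_ins (v v1 v2 : I → E) {S : Set ℂ} (hz : z ∉ S) :
    StV σ v v1 v2 z S (insert z S) v1 v2 := by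
  refine ⟨fun a c h => ?_, fun a c h => ?_, fun a c h => ?_, fun a c h => ?_, fun a c h => ?_,
    fun a c h => ?_⟩
  · exact hyb_pos_not (h ▸ hz)
  · exact hyb_pos_mem (h ▸ Set.mem_insert _ _)
  · rw [hyb_memC, h]
    simp [hz]
  · rw [hyb_memC, h]
    simp
  · by_cases hs : mp σ v a c ∈ S
    · rw [hyb_pos_mem hs, hyb_pos_mem (Set.mem_insert_of_mem _ hs)]
    · rw [hyb_pos_not hs, hyb_pos_not (fun h' => (Set.mem_insert_iff.1 h').elim h hs)]
  · rw [hyb_memC, hyb_memC]
    simp [Set.mem_insert_iff, h]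

/-! ### The spot -/

omit [Fintype I] [DecidableEq I] in
theorem spv_ne (hS : SpotV σ v z i j) : j ≠ i ∧ j ≠ σ i ∧ σ i ≠ i := by
  refine ⟨fun h => hS.mt1.1 (Or.inl h.symm), fun h => hS.mt1.1 (Or.inr (Or.inl h)), fun h => ?_⟩
  have h1 := hS.p1
  have h2 := hS.p2
  rw [h, h1] at h2
  exact one_ne_zero h2

omit [Fintype I] [DecidableEq I] in
theorem mt_dd {a c : I} (h : Mt σ v a c) : dd σ v a ≠ 0 := by
  intro h0
  exact h.2.1 (by simp [h0, dt])

omit [Fintype I] [DecidableEq I] in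
theorem spv_z (hS : SpotV σ v z i j) : mp σ v j i = z ∧ mp σ v j (σ i) = z := by
  constructor
  · rw [mp_symm v hS.mt1.symm'.2.1, hS.z1]
  · rw [mp_symm v hS.mt2.symm'.2.1, hS.z2]

omit [Fintype I] [DecidableEq I] in
theorem spv_last (hS : SpotV σ v z i j) {l : I} (hm : Mt σ v i l) (hl : l ≠ j) :
    par σ v i l < par σ v i j := by
  obtain ⟨h1, h2, h3⟩ := spv_ne hS
  refine lt_of_le_of_ne (by rw [hS.p1]; exact hm.2.2.2.1) fun he => ?_
  have hz := ((par_eq_iff v (mt_dd hm)).1 he).trans hS.z1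
  rcases hS.only i l hm hz with ⟨-, h⟩ | ⟨h, -⟩ | ⟨h, -⟩ | ⟨h, -⟩
  · exact hl h
  · exact h1 h.symm
  · exact h3 h.symm
  · exact h1 h.symm

omit [Fintype I] [DecidableEq I] in
theorem spv_first (hS : SpotV σ v z i j) {l : I} (hm : Mt σ v (σ i) l) (hl : l ≠ j) :
    par σ v (σ i) j < par σ v (σ i) l := by
  obtain ⟨h1, h2, h3⟩ := spv_ne hS
  refine lt_of_le_of_ne (by rw [hS.p2]; exact hm.2.2.1) fun he => ?_
  have hz := ((par_eq_iff v (mt_dd hm)).1 he).symm.trans hS.z2
  rcases hS.only (σ i) l hm hz with ⟨h, -⟩ | ⟨h, -⟩ | ⟨-, h⟩ | ⟨h, -⟩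
  · exact h3 h
  · exact h2 h.symm
  · exact hl h
  · exact h2 h.symm

omit [Fintype I] [DecidableEq I] in
theorem spv_j (hS : SpotV σ v z i j) {l : I} (hm : Mt σ v j l) (hz : mp σ v j l = z) :
    l = i ∨ l = σ i := by
  obtain ⟨h1, h2, h3⟩ := spv_ne hS
  rcases hS.only j l hm hz with ⟨h, -⟩ | ⟨-, h⟩ | ⟨h, -⟩ | ⟨-, h⟩
  · exact absurd h h1
  · exact Or.inl h
  · exact absurd h h2
  · exact Or.inr h

omit [Fintype I] [DecidableEq I] in
theorem spv_side (hS : SpotV σ v z i j) {l : I} (hm : Mt σ v j l) (hz : mp σ v j l ≠ z) :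
    par σ v j l ≠ par σ v j i := fun he =>
  hz (((par_eq_iff v (mt_dd hm)).1 he).trans (spv_z hS).1)

omit [Fintype I] [DecidableEq I] in
/-- The heights at the vertex. -/
theorem spv_ht (hS : SpotV σ v z i j) : ht σ v i j = ht σ v (σ i) j ∧ ht σ v j i = ht σ v j (σ i) := by
  constructor
  · rw [ht, ht, hS.p1, hS.p2, dh]
    ring
  · rw [ht, ht, hS.p5]

omit [Fintype I] [DecidableEq I] in
theorem spv_over (hT : Tame σ v) (hS : SpotV σ v z i j) :
    ht σ v j i < ht σ v i j ∨ ht σ v i j < ht σ v j i := by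
  obtain ⟨h1, h2, h3, h4, h5, h6⟩ := hS.mt1
  exact lt_or_gt_of_ne (hT.hgt i j h1 h2 h3 h4 h5 h6).symm

/-! ### Passages at the spot -/

theorem stv_pas {η : ℝ} (hL : LocD σ v v1 v2 η) (h : StV σ v v1 v2 z S1 S2 u1 u2) {a c : I}
    (hm : Mt σ v a c) (hz : mp σ v a c = z) : (hyb σ v v1 v2 S1).Pas a c ↔ Crs σ u1 a c := by
  have hz' : mp σ v c a = z := by rw [mp_symm v hm.symm'.2.1, hz]
  constructor
  · rintro (h1 | h1)
    · exact ((h.c1 a c hz).1 h1).2.2
    · exact ((h.c1 c a hz').1 h1).2.2.symm'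
  · intro h1
    obtain ⟨k1, k2, k3, k4, k5, k6⟩ := hm
    rcases lt_or_gt_of_ne (hL.tame.hgt a c k1 k2 k3 k4 k5 k6) with h2 | h2
    · exact Or.inr ((h.c1 c a hz').2 ⟨Mt.symm' ⟨k1, k2, k3, k4, k5, k6⟩, h2, h1.symm'⟩)
    · exact Or.inl ((h.c1 a c hz).2 ⟨⟨k1, k2, k3, k4, k5, k6⟩, h2, h1⟩)

/-- Order on the edge `j`: the other passages do not separate the two meetings. -/
theorem stv_side {η : ℝ} (hL : LocD σ v v1 v2 η) (h : StV σ v v1 v2 z S1 S2 u1 u2)
    (hS : SpotV σ v z i j) {l : I} (hm : Mt σ v j l) (hz : mp σ v j l ≠ z) :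
    ((hyb σ v v1 v2 S1).pos j l < (hyb σ v v1 v2 S1).pos j i ↔
      (hyb σ v v1 v2 S1).pos j l < (hyb σ v v1 v2 S2).pos j (σ i)) ∧
    ((hyb σ v v1 v2 S1).pos j l < (hyb σ v v1 v2 S2).pos j i ↔
      (hyb σ v v1 v2 S1).pos j l < (hyb σ v v1 v2 S2).pos j (σ i)) := by
  have m1 := hS.mt1.symm'
  have m2 := hS.mt2.symm'
  have e := h.pos j l hz
  rcases lt_or_gt_of_ne (spv_side hS hm hz) with h1 | h1
  · have a1 := hyb_lt hL S1 hm m1 h1
    have a2 := hyb_lt hL S2 hm m1 h1
    have a3 := hyb_lt hL S2 hm m2 (by rw [hS.p5]; exact h1)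
    rw [e] at a2 a3
    exact ⟨⟨fun _ => a3, fun _ => a1⟩, ⟨fun _ => a3, fun _ => a2⟩⟩
  · have a1 := hyb_lt hL S1 m1 hm h1
    have a2 := hyb_lt hL S2 m1 hm h1
    have a3 := hyb_lt hL S2 m2 hm (by rw [hS.p5]; exact h1)
    rw [e] at a2 a3
    exact ⟨⟨fun k => absurd k a1.asymm, fun k => absurd k a3.asymm⟩,
      ⟨fun k => absurd k a2.asymm, fun k => absurd k a3.asymm⟩⟩

/-! ### The slide -/

omit [DecidableEq I] in
/-- Sums over the crossings. -/
theorem hyb_ep (v v1 v2 : I → E) (S1 S2 : Set ℂ) :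
    (hyb σ v v1 v2 S2).ep = (hyb σ v v1 v2 S1).ep := rfl

theorem slide_V {η : ℝ} (hL : LocD σ v v1 v2 η) (h : StV σ v v1 v2 z S1 S2 u1 u2)
    (hS : SpotV σ v z i j) (hAB : 0 < dt (dd σ v i) (dd σ v j) * dt (dd σ v (σ i)) (dd σ v j))
    (a1 : Crs σ u1 i j) (a2 : ¬ Crs σ u1 (σ i) j) (b1 : ¬ Crs σ u2 i j) (b2 : Crs σ u2 (σ i) j)
    (N : ℕ) : (hyb σ v v1 v2 S2).Z σ N = (hyb σ v v1 v2 S1).Z σ N ∧
      (hyb σ v v1 v2 S2).w = (hyb σ v v1 v2 S1).w := by
  obtain ⟨n1, n2, n3⟩ := spv_ne hS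
  obtain ⟨z3, z4⟩ := spv_z hS
  obtain ⟨t1, t2⟩ := spv_ht hS
  have ok1 := hyb_ok hL S1
  have ok2 := hyb_ok hL S2
  have np : ¬ (hyb σ v v1 v2 S1).Pas (σ i) j := fun k => a2 ((stv_pas hL h hS.mt2 hS.z2).1 k)
  have np' : ¬ (hyb σ v v1 v2 S1).Pas j (σ i) := fun k =>
    a2 ((stv_pas hL h hS.mt2.symm' z4).1 k).symm'
  have hlast : ∀ l, (hyb σ v v1 v2 S1).Pas i l → l ≠ j →
      (hyb σ v v1 v2 S1).pos i l < (hyb σ v v1 v2 S1).pos i j := fun l hl hj =>
    hyb_lt hL S1 (hyb_mt hl) hS.mt1 (spv_last hS (hyb_mt hl) hj)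
  have hzf : ∀ l, Mt σ v (σ i) l → l ≠ j → mp σ v (σ i) l ≠ z := by
    intro l hl hj hz
    rcases hS.only (σ i) l hl hz with ⟨k, -⟩ | ⟨k, -⟩ | ⟨-, k⟩ | ⟨k, -⟩
    · exact n3 k
    · exact n2 k.symm
    · exact hj k
    · exact n2 k.symm
  have hfirst : ∀ l, (hyb σ v v1 v2 S1).Pas (σ i) l →
      (hyb σ v v1 v2 S2).pos (σ i) j < (hyb σ v v1 v2 S1).pos (σ i) l := by
    intro l hl
    have hj : l ≠ j := fun k => np (k ▸ hl)
    rw [← h.pos (σ i) l (hzf l (hyb_mt hl) hj)]
    exact hyb_lt hL S2 hS.mt2 (hyb_mt hl) (spv_first hS (hyb_mt hl) hj)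
  have hpos : ∀ a l, (hyb σ v v1 v2 S1).Pas a l → ¬ (a = i ∧ l = j) → ¬ (a = j ∧ l = i) →
      (hyb σ v v1 v2 S2).pos a l = (hyb σ v v1 v2 S1).pos a l := by
    intro a l hl k1 k2
    refine h.pos a l fun hz => ?_
    rcases hS.only a l (hyb_mt hl) hz with k | k | ⟨rfl, rfl⟩ | ⟨rfl, rfl⟩
    · exact k1 k
    · exact k2 k
    · exact np hl
    · exact np' hl
  have hjj : ∀ l, (hyb σ v v1 v2 S1).Pas j l → l ≠ i →
      ((hyb σ v v1 v2 S1).pos j l < (hyb σ v v1 v2 S1).pos j i ↔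
        (hyb σ v v1 v2 S1).pos j l < (hyb σ v v1 v2 S2).pos j (σ i)) := by
    intro l hl k
    refine (stv_side hL h hS (hyb_mt hl) fun hz => ?_).1
    rcases spv_j hS (hyb_mt hl) hz with k' | k'
    · exact k k'
    · exact np' (k' ▸ hl)
  have hturn := turn_same hAB
  have hsg : (0 < dt (dd σ v (σ i)) (dd σ v j)) ↔ (0 < dt (dd σ v i) (dd σ v j)) := by
    rcases pos_and_pos_or_neg_and_neg_of_mul_pos hAB with ⟨k1, k2⟩ | ⟨k1, k2⟩
    · exact ⟨fun _ => k1, fun _ => k2⟩
    · exact ⟨fun k => absurd k k2.asymm, fun k => absurd k k1.asymm⟩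
  have hsg' : (0 < dt (dd σ v j) (dd σ v (σ i))) ↔ (0 < dt (dd σ v j) (dd σ v i)) := by
    rw [dt_swap (dd σ v j), dt_swap (dd σ v j) (dd σ v i)]
    rcases pos_and_pos_or_neg_and_neg_of_mul_pos hAB with ⟨k1, k2⟩ | ⟨k1, k2⟩
    · constructor <;> intro k <;> linarith
    · constructor <;> intro k <;> linarith
  rcases spv_over hL.tame hS with ho | ho
  · -- over
    have hx : (i, j) ∈ (hyb σ v v1 v2 S1).C := (h.c1 i j hS.z1).2 ⟨hS.mt1, ho, a1⟩
    have hC : (hyb σ v v1 v2 S2).C = insert (σ i, j) ((hyb σ v v1 v2 S1).C.erase (i, j)) := by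
      ext ⟨a, c⟩
      rw [Finset.mem_insert, Finset.mem_erase]
      by_cases hz : mp σ v a c = z
      · constructor
        · intro k
          obtain ⟨m, k1, k2⟩ := (h.c2 a c hz).1 k
          rcases hS.only a c m hz with ⟨rfl, rfl⟩ | ⟨rfl, rfl⟩ | ⟨rfl, rfl⟩ | ⟨rfl, rfl⟩
          · exact absurd k2 b1
          · exact absurd ho k1.asymm
          · exact Or.inl rfl
          · rw [← t1, ← t2] at k1
            exact absurd ho k1.asymm
        · rintro (k | ⟨k, k'⟩)
          · rw [k]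
            exact (h.c2 _ _ hS.z2).2 ⟨hS.mt2, by rw [← t1, ← t2]; exact ho, b2⟩
          · obtain ⟨m, k1, k2⟩ := (h.c1 a c hz).1 k'
            rcases hS.only a c m hz with ⟨rfl, rfl⟩ | ⟨rfl, rfl⟩ | ⟨rfl, rfl⟩ | ⟨rfl, rfl⟩
            · exact absurd rfl k
            · exact absurd ho k1.asymm
            · exact absurd k2 a2
            · exact absurd k2.symm' a2
      · rw [h.mem a c hz]
        constructor
        · intro k
          refine Or.inr ⟨fun k' => ?_, k⟩
          obtain ⟨e1, e2⟩ := Prod.mk.inj k'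
          rw [e1, e2] at hz
          exact hz hS.z1
        · rintro (k | ⟨-, k'⟩)
          · obtain ⟨e1, e2⟩ := Prod.mk.inj k
            rw [e1, e2] at hz
            exact absurd hS.z2 hz
          · exact k'
    have hep' : (hyb σ v v1 v2 S2).ep (σ i) j = (hyb σ v v1 v2 S1).ep i j := by
      simp only [hyb]
      rw [if_congr hsg rfl rfl]
    refine ⟨Dia.Z_slide_over σ N _ _ ok1 ok2 i j n3 n1 n2 hx np hC hlast hfirst hpos hjj rfl
      (fun _ _ => rfl) (fun _ _ => rfl) hep' ?_, ?_⟩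
    · exact hturn
    · unfold Dia.w
      rw [hC, Finset.sum_insert (fun k => np (Or.inl (Finset.mem_of_mem_erase k))),
        ← Finset.add_sum_erase _ _ hx]
      congr 1
  · -- under
    have hx : (j, i) ∈ (hyb σ v v1 v2 S1).C := (h.c1 j i z3).2 ⟨hS.mt1.symm', ho, a1.symm'⟩
    have hC : (hyb σ v v1 v2 S2).C = insert (j, σ i) ((hyb σ v v1 v2 S1).C.erase (j, i)) := by
      ext ⟨a, c⟩
      rw [Finset.mem_insert, Finset.mem_erase]
      by_cases hz : mp σ v a c = z
      · constructor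
        · intro k
          obtain ⟨m, k1, k2⟩ := (h.c2 a c hz).1 k
          rcases hS.only a c m hz with ⟨rfl, rfl⟩ | ⟨rfl, rfl⟩ | ⟨rfl, rfl⟩ | ⟨rfl, rfl⟩
          · exact absurd k2 b1
          · exact absurd k2.symm' b1
          · rw [← t1, ← t2] at k1
            exact absurd ho k1.asymm
          · exact Or.inl rfl
        · rintro (k | ⟨k, k'⟩)
          · rw [k]
            exact (h.c2 _ _ z4).2 ⟨hS.mt2.symm', by rw [← t1, ← t2]; exact ho, b2.symm'⟩
          · obtain ⟨m, k1, k2⟩ := (h.c1 a c hz).1 k'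
            rcases hS.only a c m hz with ⟨rfl, rfl⟩ | ⟨rfl, rfl⟩ | ⟨rfl, rfl⟩ | ⟨rfl, rfl⟩
            · exact absurd ho k1.asymm
            · exact absurd rfl k
            · exact absurd k2 a2
            · exact absurd k2.symm' a2
      · rw [h.mem a c hz]
        constructor
        · intro k
          refine Or.inr ⟨fun k' => ?_, k⟩
          obtain ⟨e1, e2⟩ := Prod.mk.inj k'
          rw [e1, e2] at hz
          exact hz z3
        · rintro (k | ⟨-, k'⟩)
          · obtain ⟨e1, e2⟩ := Prod.mk.inj k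
            rw [e1, e2] at hz
            exact absurd z4 hz
          · exact k'
    have hep' : (hyb σ v v1 v2 S2).ep j (σ i) = (hyb σ v v1 v2 S1).ep j i := by
      simp only [hyb]
      rw [if_congr hsg' rfl rfl]
    refine ⟨Dia.Z_slide_under σ N _ _ ok1 ok2 i j n3 n1 n2 hx np hC hlast hfirst hpos hjj rfl
      (fun _ _ => rfl) (fun _ _ => rfl) hep' ?_, ?_⟩
    · change turn (dd σ v (σ i) / dd σ v j) = turn (dd σ v i / dd σ v j) +
        turn (dd σ v (σ i) / dd σ v i)
      rw [turn_neg (dt_ne_symm hS.mt2.symm'.2.1), turn_neg (dt_ne_symm hS.mt1.symm'.2.1)]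
      linarith
    · unfold Dia.w
      rw [hC, Finset.sum_insert (fun k => np (Or.inr (Finset.mem_of_mem_erase k))),
        ← Finset.add_sum_erase _ _ hx]
      congr 1

/-! ### The second move -/

theorem r2_V {η : ℝ} (hL : LocD σ v v1 v2 η) (h : StV σ v v1 v2 z S1 S2 u1 u2)
    (hS : SpotV σ v z i j) (hAB : dt (dd σ v i) (dd σ v j) * dt (dd σ v (σ i)) (dd σ v j) < 0)
    (hxy : dt (dd σ v i) (dd σ v (σ i)) ≠ 0)
    (a1 : ¬ Crs σ u1 i j) (a2 : ¬ Crs σ u1 (σ i) j) (b1 : Crs σ u2 i j) (b2 : Crs σ u2 (σ i) j)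
    (hord : par σ u2 j i < par σ u2 j (σ i) ↔
      0 < dt (dd σ v i) (dd σ v j) * dt (dd σ v i) (dd σ v (σ i)))
    (N : ℕ) : (hyb σ v v1 v2 S2).Z σ N = (hyb σ v v1 v2 S1).Z σ N ∧
      (hyb σ v v1 v2 S2).w = (hyb σ v v1 v2 S1).w := by
  obtain ⟨n1, n2, n3⟩ := spv_ne hS
  obtain ⟨z3, z4⟩ := spv_z hS
  obtain ⟨t1, t2⟩ := spv_ht hS
  have ok1 := hyb_ok hL S1
  have ok2 := hyb_ok hL S2
  have np1 : ¬ (hyb σ v v1 v2 S1).Pas i j := fun k => a1 ((stv_pas hL h hS.mt1 hS.z1).1 k)
  have np1' : ¬ (hyb σ v v1 v2 S1).Pas j i := fun k =>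
    a1 ((stv_pas hL h hS.mt1.symm' z3).1 k).symm'
  have np2 : ¬ (hyb σ v v1 v2 S1).Pas (σ i) j := fun k => a2 ((stv_pas hL h hS.mt2 hS.z2).1 k)
  have np2' : ¬ (hyb σ v v1 v2 S1).Pas j (σ i) := fun k =>
    a2 ((stv_pas hL h hS.mt2.symm' z4).1 k).symm'
  have hnz : ∀ a l, (hyb σ v v1 v2 S1).Pas a l → mp σ v a l ≠ z := by
    intro a l hl hz
    rcases hS.only a l (hyb_mt hl) hz with ⟨rfl, rfl⟩ | ⟨rfl, rfl⟩ | ⟨rfl, rfl⟩ | ⟨rfl, rfl⟩
    · exact np1 hl
    · exact np1' hl
    · exact np2 hl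
    · exact np2' hl
  have hpos : ∀ a l, (hyb σ v v1 v2 S1).Pas a l →
      (hyb σ v v1 v2 S2).pos a l = (hyb σ v v1 v2 S1).pos a l := fun a l hl =>
    h.pos a l (hnz a l hl)
  have hlast : ∀ l, (hyb σ v v1 v2 S1).Pas i l →
      (hyb σ v v1 v2 S1).pos i l < (hyb σ v v1 v2 S2).pos i j := by
    intro l hl
    rw [← hpos i l hl]
    exact hyb_lt hL S2 (hyb_mt hl) hS.mt1 (spv_last hS (hyb_mt hl) fun k => np1 (k ▸ hl))
  have hfirst : ∀ l, (hyb σ v v1 v2 S1).Pas (σ i) l →
      (hyb σ v v1 v2 S2).pos (σ i) j < (hyb σ v v1 v2 S1).pos (σ i) l := by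
    intro l hl
    rw [← hpos (σ i) l hl]
    exact hyb_lt hL S2 hS.mt2 (hyb_mt hl) (spv_first hS (hyb_mt hl) fun k => np2 (k ▸ hl))
  have hjj : ∀ l, (hyb σ v v1 v2 S1).Pas j l →
      ((hyb σ v v1 v2 S1).pos j l < (hyb σ v v1 v2 S2).pos j i ↔
        (hyb σ v v1 v2 S1).pos j l < (hyb σ v v1 v2 S2).pos j (σ i)) := fun l hl =>
    (stv_side hL h hS (hyb_mt hl) (hnz j l hl)).2
  have hturn := turn_opp hAB hxy
  have o1 : (hyb σ v v1 v2 S2).pos j i < (hyb σ v v1 v2 S2).pos j (σ i) →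
      ¬ dt (dd σ v i) (dd σ v j) * dt (dd σ v i) (dd σ v (σ i)) < 0 := by
    intro k
    rw [h.p2 j i z3, h.p2 j (σ i) z4] at k
    exact (hord.1 k).asymm
  have o2 : (hyb σ v v1 v2 S2).pos j (σ i) < (hyb σ v v1 v2 S2).pos j i →
      dt (dd σ v i) (dd σ v j) * dt (dd σ v i) (dd σ v (σ i)) < 0 := by
    intro k
    rw [h.p2 j i z3, h.p2 j (σ i) z4] at k
    rcases lt_trichotomy (dt (dd σ v i) (dd σ v j) * dt (dd σ v i) (dd σ v (σ i))) 0 with
      k1 | k1 | k1
    · exact k1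
    · exact absurd k1 (mul_ne_zero hS.mt1.2.1 hxy)
    · exact absurd (hord.2 k1) k.asymm
  have hsg : (0 < dt (dd σ v (σ i)) (dd σ v j)) ↔ ¬ (0 < dt (dd σ v i) (dd σ v j)) := by
    rcases mul_neg_iff.1 hAB with ⟨k1, k2⟩ | ⟨k1, k2⟩
    · exact ⟨fun k => absurd k k2.asymm, fun k => absurd k1 k⟩
    · exact ⟨fun _ => k1.asymm, fun _ => k2⟩
  have hsg' : (0 < dt (dd σ v j) (dd σ v (σ i))) ↔ ¬ (0 < dt (dd σ v j) (dd σ v i)) := by
    rw [dt_swap (dd σ v j), dt_swap (dd σ v j) (dd σ v i)]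
    rcases mul_neg_iff.1 hAB with ⟨k1, k2⟩ | ⟨k1, k2⟩
    · constructor
      · intro _
        linarith
      · intro _
        linarith
    · constructor
      · intro k
        linarith
      · intro k
        exact absurd (by linarith) k
  have sgn : ∀ x y : ℝ, ((0 < y) ↔ ¬ (0 < x)) →
      (if 0 < y then (1 : ℝ) else -1) = -(if 0 < x then (1 : ℝ) else -1) := by
    intro x y k
    by_cases k1 : 0 < x
    · rw [if_pos k1, if_neg (fun k2 => k.1 k2 k1)]
    · rw [if_neg k1, if_pos (k.2 k1)]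
      norm_num
  have hji : (if 0 < dt (dd σ v j) (dd σ v i) then (1 : ℝ) else -1) =
      -(if 0 < dt (dd σ v i) (dd σ v j) then (1 : ℝ) else -1) := by
    refine sgn _ _ ?_
    rw [dt_swap (dd σ v j)]
    have := hS.mt1.2.1
    constructor
    · intro k k'
      linarith
    · intro k
      have : dt (dd σ v i) (dd σ v j) < 0 := lt_of_le_of_ne (not_lt.1 k) this
      linarith
  rcases spv_over hL.tame hS with ho | ho
  · -- over
    have hC : (hyb σ v v1 v2 S2).C =
        insert (i, j) (insert (σ i, j) (hyb σ v v1 v2 S1).C) := by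
      ext ⟨a, c⟩
      rw [Finset.mem_insert, Finset.mem_insert]
      by_cases hz : mp σ v a c = z
      · constructor
        · intro k
          obtain ⟨m, k1, k2⟩ := (h.c2 a c hz).1 k
          rcases hS.only a c m hz with ⟨rfl, rfl⟩ | ⟨rfl, rfl⟩ | ⟨rfl, rfl⟩ | ⟨rfl, rfl⟩
          · exact Or.inl rfl
          · exact absurd ho k1.asymm
          · exact Or.inr (Or.inl rfl)
          · rw [← t1, ← t2] at k1
            exact absurd ho k1.asymm
        · rintro (k | k | k)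
          · rw [k]
            exact (h.c2 _ _ hS.z1).2 ⟨hS.mt1, ho, b1⟩
          · rw [k]
            exact (h.c2 _ _ hS.z2).2 ⟨hS.mt2, by rw [← t1, ← t2]; exact ho, b2⟩
          · exact absurd hz (hnz a c (Or.inl k))
      · rw [h.mem a c hz]
        constructor
        · exact fun k => Or.inr (Or.inr k)
        · rintro (k | k | k)
          · obtain ⟨e1, e2⟩ := Prod.mk.inj k
            rw [e1, e2] at hz
            exact absurd hS.z1 hz
          · obtain ⟨e1, e2⟩ := Prod.mk.inj k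
            rw [e1, e2] at hz
            exact absurd hS.z2 hz
          · exact k
    have hep' : (hyb σ v v1 v2 S2).ep (σ i) j = -(hyb σ v v1 v2 S2).ep i j := by
      simp only [hyb]
      exact sgn _ _ hsg
    refine ⟨Dia.Z_R2_over σ N _ _ ok1 ok2 i j n3 n1 n2 np1 np2 hC hlast hfirst hpos hjj rfl
      (fun _ _ => rfl) (fun _ _ => rfl) hep' ?_ ?_, ?_⟩
    · intro k
      have e := hturn
      rw [if_neg (o1 k), sub_zero] at e
      exact e
    · intro k
      have e := hturn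
      rw [if_pos (o2 k)] at e
      exact e
    · unfold Dia.w
      rw [hC, Finset.sum_insert, Finset.sum_insert]
      · dsimp only
        rw [hep']
        have : ∑ x ∈ (hyb σ v v1 v2 S1).C, (hyb σ v v1 v2 S2).ep x.1 x.2 =
            ∑ x ∈ (hyb σ v v1 v2 S1).C, (hyb σ v v1 v2 S1).ep x.1 x.2 := rfl
        rw [this]
        ring
      · exact fun k => np2 (Or.inl k)
      · rw [Finset.mem_insert]
        rintro (k | k)
        · exact n3 (Prod.mk.inj k).1.symm
        · exact np1 (Or.inl k)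
  · -- under
    have hC : (hyb σ v v1 v2 S2).C =
        insert (j, i) (insert (j, σ i) (hyb σ v v1 v2 S1).C) := by
      ext ⟨a, c⟩
      rw [Finset.mem_insert, Finset.mem_insert]
      by_cases hz : mp σ v a c = z
      · constructor
        · intro k
          obtain ⟨m, k1, k2⟩ := (h.c2 a c hz).1 k
          rcases hS.only a c m hz with ⟨rfl, rfl⟩ | ⟨rfl, rfl⟩ | ⟨rfl, rfl⟩ | ⟨rfl, rfl⟩
          · exact absurd ho k1.asymm
          · exact Or.inl rfl
          · rw [← t1, ← t2] at k1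
            exact absurd ho k1.asymm
          · exact Or.inr (Or.inl rfl)
        · rintro (k | k | k)
          · rw [k]
            exact (h.c2 _ _ z3).2 ⟨hS.mt1.symm', ho, b1.symm'⟩
          · rw [k]
            exact (h.c2 _ _ z4).2 ⟨hS.mt2.symm', by rw [← t1, ← t2]; exact ho, b2.symm'⟩
          · exact absurd hz (hnz a c (Or.inl k))
      · rw [h.mem a c hz]
        constructor
        · exact fun k => Or.inr (Or.inr k)
        · rintro (k | k | k)
          · obtain ⟨e1, e2⟩ := Prod.mk.inj k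
            rw [e1, e2] at hz
            exact absurd z3 hz
          · obtain ⟨e1, e2⟩ := Prod.mk.inj k
            rw [e1, e2] at hz
            exact absurd z4 hz
          · exact k
    have hep' : (hyb σ v v1 v2 S2).ep j (σ i) = -(hyb σ v v1 v2 S2).ep j i := by
      simp only [hyb]
      exact sgn _ _ hsg'
    have T1 := turn_neg (x := dd σ v (σ i)) (z := dd σ v j) (dt_ne_symm hS.mt2.symm'.2.1)
    have T2 := turn_neg (x := dd σ v i) (z := dd σ v j) (dt_ne_symm hS.mt1.symm'.2.1)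
    refine ⟨Dia.Z_R2_under σ N _ _ ok1 ok2 i j n3 n1 n2 np1 np2 hC hlast hfirst hpos hjj rfl
      (fun _ _ => rfl) (fun _ _ => rfl) hep' ?_ ?_, ?_⟩
    · intro k
      change turn (dd σ v (σ i) / dd σ v j) = turn (dd σ v i / dd σ v j) +
        turn (dd σ v (σ i) / dd σ v i)
      have e := hturn
      rw [if_neg (o1 k), sub_zero] at e
      rw [T1, T2]
      linarith
    · intro k
      change turn (dd σ v (σ i) / dd σ v j) = turn (dd σ v i / dd σ v j) +
        turn (dd σ v (σ i) / dd σ v i) - (if 0 < dt (dd σ v j) (dd σ v i) then (1 : ℝ) else -1)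
      have e := hturn
      rw [if_pos (o2 k), sg1] at e
      rw [T1, T2, hji]
      linarith
    · unfold Dia.w
      rw [hC, Finset.sum_insert, Finset.sum_insert]
      · dsimp only
        rw [hep']
        have : ∑ x ∈ (hyb σ v v1 v2 S1).C, (hyb σ v v1 v2 S2).ep x.1 x.2 =
            ∑ x ∈ (hyb σ v v1 v2 S1).C, (hyb σ v v1 v2 S1).ep x.1 x.2 := rfl
        rw [this]
        ring
      · exact fun k => np2 (Or.inr k)
      · rw [Finset.mem_insert]
        rintro (k | k)
        · exact n3 (Prod.mk.inj k).2.symm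
        · exact np1 (Or.inr k)

/-! ### The same side -/

theorem same_V {η : ℝ} (hL : LocD σ v v1 v2 η) (h : StV σ v v1 v2 z S1 S2 u1 u2)
    (hS : SpotV σ v z i j) (c1 : Crs σ u2 i j ↔ Crs σ u1 i j)
    (c2 : Crs σ u2 (σ i) j ↔ Crs σ u1 (σ i) j)
    (hord : Crs σ u1 i j → Crs σ u1 (σ i) j →
      (par σ u1 j i < par σ u1 j (σ i) ↔ par σ u2 j i < par σ u2 j (σ i)) ∧
      (par σ u1 j (σ i) < par σ u1 j i ↔ par σ u2 j (σ i) < par σ u2 j i))
    (N : ℕ) : (hyb σ v v1 v2 S2).Z σ N = (hyb σ v v1 v2 S1).Z σ N ∧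
      (hyb σ v v1 v2 S2).w = (hyb σ v v1 v2 S1).w := by
  obtain ⟨n1, n2, n3⟩ := spv_ne hS
  obtain ⟨z3, z4⟩ := spv_z hS
  have key : ∀ a c, Mt σ v a c → mp σ v a c = z → (Crs σ u2 a c ↔ Crs σ u1 a c) := by
    intro a c hm hz
    rcases hS.only a c hm hz with ⟨rfl, rfl⟩ | ⟨rfl, rfl⟩ | ⟨rfl, rfl⟩ | ⟨rfl, rfl⟩
    · exact c1
    · exact ⟨fun k => (c1.1 k.symm').symm', fun k => (c1.2 k.symm').symm'⟩
    · exact c2
    · exact ⟨fun k => (c2.1 k.symm').symm', fun k => (c2.2 k.symm').symm'⟩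
  have hC : (hyb σ v v1 v2 S2).C = (hyb σ v v1 v2 S1).C := by
    ext ⟨a, c⟩
    by_cases hz : mp σ v a c = z
    · rw [h.c1 a c hz, h.c2 a c hz]
      constructor
      · rintro ⟨m, k1, k2⟩
        exact ⟨m, k1, (key a c m hz).1 k2⟩
      · rintro ⟨m, k1, k2⟩
        exact ⟨m, k1, (key a c m hz).2 k2⟩
    · exact h.mem a c hz
  refine ⟨?_, ?_⟩
  · refine Dia.Z_ord σ N _ _ hC rfl (fun _ _ _ => rfl) (fun _ _ _ => rfl) ?_
    intro a c d hc hd
    have mc := hyb_mt hc
    have md := hyb_mt hd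
    rcases lt_trichotomy (par σ v a c) (par σ v a d) with hl | he | hl
    · exact ⟨fun _ => hyb_lt hL _ mc md hl, fun _ => hyb_lt hL _ mc md hl⟩
    · have hm := (par_eq_iff v (mt_dd mc)).1 he
      by_cases hz : mp σ v a c = z
      · have hz' : mp σ v a d = z := hm ▸ hz
        by_cases hcd : c = d
        · subst hcd
          simp
        · have ha : a = j := by
            rcases hS.only a c mc hz with ⟨k1, k2⟩ | ⟨k1, -⟩ | ⟨k1, k2⟩ | ⟨k1, -⟩
            · rcases hS.only a d md hz' with ⟨l1, l2⟩ | ⟨l1, -⟩ | ⟨l1, -⟩ | ⟨l1, -⟩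
              · exact absurd (k2.trans l2.symm) hcd
              · exact l1
              · exact absurd (l1.symm.trans k1) n3
              · exact l1
            · exact k1
            · rcases hS.only a d md hz' with ⟨l1, -⟩ | ⟨l1, -⟩ | ⟨l1, l2⟩ | ⟨l1, -⟩
              · exact absurd (k1.symm.trans l1) n3
              · exact l1
              · exact absurd (k2.trans l2.symm) hcd
              · exact l1
            · exact k1
          subst ha
          rw [h.p1 _ _ hz, h.p1 _ _ hz', h.p2 _ _ hz, h.p2 _ _ hz']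
          have kc := (stv_pas hL h mc hz).1 hc
          have kd := (stv_pas hL h md hz').1 hd
          rcases spv_j hS mc hz with rfl | rfl
          · rcases spv_j hS md hz' with rfl | rfl
            · exact absurd rfl hcd
            · exact (hord kc.symm' kd.symm').1
          · rcases spv_j hS md hz' with rfl | rfl
            · exact (hord kd.symm' kc.symm').2
            · exact absurd rfl hcd
      · have hz' : mp σ v a d ≠ z := hm ▸ hz
        rw [h.pos a c hz, h.pos a d hz']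
    · exact ⟨fun k => absurd k (hyb_lt hL _ md mc hl).asymm,
        fun k => absurd k (hyb_lt hL _ md mc hl).asymm⟩
  · unfold Dia.w
    rw [hC]
    rfl

end

theorem step_V {v v1 v2 : I → E} {η : ℝ} (hL : LocD σ v v1 v2 η) {z : ℂ} {i j : I}
    (hS : SpotV σ v z i j) (S : Set ℂ) (hz : z ∉ S) (N : ℕ) :
    (hyb σ v v1 v2 (insert z S)).Z σ N = (hyb σ v v1 v2 S).Z σ N ∧
      (hyb σ v v1 v2 (insert z S)).w = (hyb σ v v1 v2 S).w := by
  have h := stV_ins (σ := σ) v v1 v2 hz
  obtain ⟨f1, n1, a1, a2, a3⟩ := vspot hL.tame hL.gap hL.near1 hL.gen1 hS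
  obtain ⟨f2, n2, b1, b2, b3⟩ := vspot hL.tame hL.gap hL.near2 hL.gen2 hS
  have hA : dt (dd σ v j) (dd σ v i) ≠ 0 := hS.mt1.symm'.2.1
  have hB : dt (dd σ v j) (dd σ v (σ i)) ≠ 0 := hS.mt2.symm'.2.1
  have eA := dt_swap (dd σ v i) (dd σ v j)
  have eB := dt_swap (dd σ v (σ i)) (dd σ v j)
  have eAB : dt (dd σ v i) (dd σ v j) * dt (dd σ v (σ i)) (dd σ v j) =
      dt (dd σ v j) (dd σ v i) * dt (dd σ v j) (dd σ v (σ i)) := by
    rw [eA, eB]
    ring
  obtain ⟨A, hAe⟩ : ∃ A, A = dt (dd σ v j) (dd σ v i) := ⟨_, rfl⟩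
  obtain ⟨B, hBe⟩ : ∃ B, B = dt (dd σ v j) (dd σ v (σ i)) := ⟨_, rfl⟩
  obtain ⟨Y, hYe⟩ : ∃ Y, Y = dt (dd σ v i) (dd σ v (σ i)) := ⟨_, rfl⟩
  rw [← hAe] at a1 a3 b1 b3 hA eA eAB
  rw [← hBe] at a2 a3 b2 b3 hB eB eAB
  rw [← hYe] at a3 b3
  rcases lt_or_gt_of_ne (mul_ne_zero n1 n2) with hf | hf
  · rcases lt_or_gt_of_ne (mul_ne_zero hA hB) with hAB | hAB
    · -- touching
      have hxy : Y ≠ 0 := by
        intro hY
        have hs := hL.tame.slit i
        have hd : dd σ v i ≠ 0 := mt_dd hS.mt1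
        obtain ⟨c, hc⟩ : ∃ c : ℂ, c = dd σ v (σ i) / dd σ v i := ⟨_, rfl⟩
        have hc' : dd σ v (σ i) = c * dd σ v i := by
          rw [hc]
          field_simp
        rw [← hc] at hs
        have e1 : Y = c.im * ((dd σ v i).re ^ 2 + (dd σ v i).im ^ 2) := by
          rw [hYe, hc']
          unfold dt
          rw [Complex.mul_re, Complex.mul_im]
          ring
        have hn : 0 < (dd σ v i).re ^ 2 + (dd σ v i).im ^ 2 := by
          have := Complex.normSq_pos.2 hd
          rw [Complex.normSq_apply] at this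
          nlinarith
        have hci : c.im = 0 := by
          rw [hY] at e1
          rcases mul_eq_zero.1 e1.symm with k | k
          · exact k
          · exact absurd k hn.ne'
        have hcr : 0 < c.re := by
          rcases Complex.mem_slitPlane_iff.1 hs with k | k
          · exact k
          · exact absurd hci k
        have e2 : B = c.re * A := by
          rw [hBe, hAe, hc']
          unfold dt
          rw [Complex.mul_re, Complex.mul_im, hci]
          ring
        rw [e2] at hAB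
        have : 0 ≤ A * (c.re * A) := by
          have := mul_nonneg hcr.le (mul_self_nonneg A)
          linarith
        linarith
      have hAB' : dt (dd σ v i) (dd σ v j) * dt (dd σ v (σ i)) (dd σ v j) < 0 := by
        rw [eAB]
        exact hAB
      have o1 := a3 hAB
      have o2 := b3 hAB
      rcases lt_or_gt_of_ne (mul_ne_zero n1 hA) with k | k
      · -- `v1` has none, `v2` has both
        have k2 : 0 < f2 * A := by
          rcases mul_neg_iff.1 hf with ⟨l1, l2⟩ | ⟨l1, l2⟩ <;>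
            rcases mul_neg_iff.1 k with ⟨l3, l4⟩ | ⟨l3, l4⟩
          · exact mul_pos_of_neg_of_neg l2 l4
          · exact absurd l1 l3.asymm
          · exact absurd l3 l1.asymm
          · exact mul_pos l2 l4
        have k3 : f2 * B < 0 := by
          rcases mul_neg_iff.1 hAB with ⟨l1, l2⟩ | ⟨l1, l2⟩
          · exact mul_neg_of_pos_of_neg (pos_of_mul_pos_left k2 l1.le) l2
          · exact mul_neg_of_neg_of_pos (neg_of_mul_pos_left k2 l1.le) l2
        have k4 : 0 < f1 * B := by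
          rcases mul_neg_iff.1 hAB with ⟨l1, l2⟩ | ⟨l1, l2⟩
          · exact mul_pos_of_neg_of_neg (neg_of_mul_neg_left k l1.le) l2
          · exact mul_pos (pos_of_mul_neg_left k l1.le) l2
        refine r2_V hL h hS hAB' (hYe ▸ hxy) (fun c => (a1.1 c).asymm k)
          (fun c => (a2.1 c).asymm k4) (b1.2 k2) (b2.2 k3) ?_ N
        rw [o2, eA, ← hYe]
        rcases pos_and_pos_or_neg_and_neg_of_mul_pos k2 with ⟨l1, l2⟩ | ⟨l1, l2⟩
        · rw [mul_neg_iff, mul_pos_iff]
          constructor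
          · rintro (⟨-, l⟩ | ⟨l, -⟩)
            · exact Or.inr ⟨by linarith, l⟩
            · exact absurd l1 l.asymm
          · rintro (⟨l, -⟩ | ⟨-, l⟩)
            · linarith
            · exact Or.inl ⟨l1, l⟩
        · rw [mul_neg_iff, mul_pos_iff]
          constructor
          · rintro (⟨l, -⟩ | ⟨-, l⟩)
            · exact absurd l1 l.asymm
            · exact Or.inl ⟨by linarith, l⟩
          · rintro (⟨-, l⟩ | ⟨l, -⟩)
            · exact Or.inr ⟨l1, l⟩
            · linarith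
      · -- `v1` has both, `v2` has none
        have k2 : f2 * A < 0 := by
          rcases mul_neg_iff.1 hf with ⟨l1, l2⟩ | ⟨l1, l2⟩
          · exact mul_neg_of_neg_of_pos l2 (pos_of_mul_pos_right k l1.le)
          · exact mul_neg_of_pos_of_neg l2 (neg_of_mul_pos_right k l1.le)
        have k3 : f1 * B < 0 := by
          rcases mul_neg_iff.1 hAB with ⟨l1, l2⟩ | ⟨l1, l2⟩
          · exact mul_neg_of_pos_of_neg (pos_of_mul_pos_left k l1.le) l2
          · exact mul_neg_of_neg_of_pos (neg_of_mul_pos_left k l1.le) l2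
        have k4 : 0 < f2 * B := by
          rcases mul_neg_iff.1 hAB with ⟨l1, l2⟩ | ⟨l1, l2⟩
          · exact mul_pos_of_neg_of_neg (neg_of_mul_neg_left k2 l1.le) l2
          · exact mul_pos (pos_of_mul_neg_left k2 l1.le) l2
        have r := r2_V hL h.symm hS hAB' (hYe ▸ hxy) (fun c => (b1.1 c).asymm k2)
          (fun c => (b2.1 c).asymm k4) (a1.2 k) (a2.2 k3) (by
            rw [o1, eA, ← hYe]
            rcases pos_and_pos_or_neg_and_neg_of_mul_pos k with ⟨l1, l2⟩ | ⟨l1, l2⟩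
            · rw [mul_neg_iff, mul_pos_iff]
              constructor
              · rintro (⟨-, l⟩ | ⟨l, -⟩)
                · exact Or.inr ⟨by linarith, l⟩
                · exact absurd l1 l.asymm
              · rintro (⟨l, -⟩ | ⟨-, l⟩)
                · linarith
                · exact Or.inl ⟨l1, l⟩
            · rw [mul_neg_iff, mul_pos_iff]
              constructor
              · rintro (⟨l, -⟩ | ⟨-, l⟩)
                · exact absurd l1 l.asymm
                · exact Or.inl ⟨by linarith, l⟩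
              · rintro (⟨-, l⟩ | ⟨l, -⟩)
                · exact Or.inr ⟨l1, l⟩
                · linarith) N
        exact ⟨r.1.symm, r.2.symm⟩
    · -- transversal
      have hAB' : 0 < dt (dd σ v i) (dd σ v j) * dt (dd σ v (σ i)) (dd σ v j) := by
        rw [eAB]
        exact hAB
      rcases lt_or_gt_of_ne (mul_ne_zero n1 hA) with k | k
      · -- `v1` has the crossing with `σ i`
        have k2 : 0 < f2 * A := by
          rcases mul_neg_iff.1 hf with ⟨l1, l2⟩ | ⟨l1, l2⟩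
          · exact mul_pos_of_neg_of_neg l2 (neg_of_mul_neg_right k l1.le)
          · exact mul_pos l2 (pos_of_mul_neg_right k l1.le)
        have k3 : f1 * B < 0 := by
          rcases pos_and_pos_or_neg_and_neg_of_mul_pos hAB with ⟨l1, l2⟩ | ⟨l1, l2⟩
          · exact mul_neg_of_neg_of_pos (neg_of_mul_neg_left k l1.le) l2
          · exact mul_neg_of_pos_of_neg (pos_of_mul_neg_left k l1.le) l2
        have k4 : 0 < f2 * B := by
          rcases pos_and_pos_or_neg_and_neg_of_mul_pos hAB with ⟨l1, l2⟩ | ⟨l1, l2⟩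
          · exact mul_pos (pos_of_mul_pos_left k2 l1.le) l2
          · exact mul_pos_of_neg_of_neg (neg_of_mul_pos_left k2 l1.le) l2
        have r := slide_V hL h.symm hS hAB' (b1.2 k2) (fun c => (b2.1 c).asymm k4)
          (fun c => (a1.1 c).asymm k) (a2.2 k3) N
        exact ⟨r.1.symm, r.2.symm⟩
      · -- `v1` has the crossing with `i`
        have k2 : f2 * A < 0 := by
          rcases mul_neg_iff.1 hf with ⟨l1, l2⟩ | ⟨l1, l2⟩
          · exact mul_neg_of_neg_of_pos l2 (pos_of_mul_pos_right k l1.le)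
          · exact mul_neg_of_pos_of_neg l2 (neg_of_mul_pos_right k l1.le)
        have k3 : 0 < f1 * B := by
          rcases pos_and_pos_or_neg_and_neg_of_mul_pos hAB with ⟨l1, l2⟩ | ⟨l1, l2⟩
          · exact mul_pos (pos_of_mul_pos_left k l1.le) l2
          · exact mul_pos_of_neg_of_neg (neg_of_mul_pos_left k l1.le) l2
        have k4 : f2 * B < 0 := by
          rcases pos_and_pos_or_neg_and_neg_of_mul_pos hAB with ⟨l1, l2⟩ | ⟨l1, l2⟩
          · exact mul_neg_of_neg_of_pos (neg_of_mul_neg_left k2 l1.le) l2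
          · exact mul_neg_of_pos_of_neg (pos_of_mul_neg_left k2 l1.le) l2
        exact slide_V hL h hS hAB' (a1.2 k) (fun c => (a2.1 c).asymm k3)
          (fun c => (b1.1 c).asymm k2) (b2.2 k4) N
  · -- the same side
    have sg : ∀ x : ℝ, (0 < f2 * x ↔ 0 < f1 * x) ∧ (f2 * x < 0 ↔ f1 * x < 0) := by
      intro x
      have hc : 0 < f2 / f1 := by
        rcases pos_and_pos_or_neg_and_neg_of_mul_pos hf with ⟨l1, l2⟩ | ⟨l1, l2⟩
        · exact div_pos l2 l1
        · exact div_pos_of_neg_of_neg l2 l1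
      have e : f2 * x = f2 / f1 * (f1 * x) := by
        field_simp
      rw [e, mul_pos_iff_of_pos_left hc]
      refine ⟨Iff.rfl, ?_⟩
      rw [← neg_pos, ← mul_neg, mul_pos_iff_of_pos_left hc, neg_pos]
    have c1 : Crs σ v2 i j ↔ Crs σ v1 i j := b1.trans ((sg A).1.trans a1.symm)
    have c2 : Crs σ v2 (σ i) j ↔ Crs σ v1 (σ i) j := b2.trans ((sg B).2.trans a2.symm)
    refine same_V hL h hS c1 c2 (fun k1 k2 => ?_) N
    have hAB : A * B < 0 := by
      rcases pos_and_pos_or_neg_and_neg_of_mul_pos (a1.1 k1) with ⟨l1, l2⟩ | ⟨l1, l2⟩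
      · exact mul_neg_of_pos_of_neg l2 (neg_of_mul_neg_right (a2.1 k2) l1.le)
      · exact mul_neg_of_neg_of_pos l2 (pos_of_mul_neg_right (a2.1 k2) l1.le)
    have e1 : par σ v1 j i < par σ v1 j (σ i) ↔ par σ v2 j i < par σ v2 j (σ i) :=
      (a3 hAB).trans ((sg Y).2.symm.trans (b3 hAB).symm)
    have m3 := (spv_ne hS).2.2
    have d1 : par σ v1 j i ≠ par σ v1 j (σ i) := fun k =>
      m3 (hL.gen1.trp j i (σ i) k1.symm' k2.symm' k).symm
    have d2 : par σ v2 j i ≠ par σ v2 j (σ i) := fun k =>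
      m3 (hL.gen2.trp j i (σ i) (c1.2 k1).symm' (c2.2 k2).symm' k).symm
    refine ⟨e1, ?_, ?_⟩
    · intro k
      exact lt_of_le_of_ne (not_lt.1 fun l => (e1.2 l).asymm k) d2.symm
    · intro k
      exact lt_of_le_of_ne (not_lt.1 fun l => (e1.1 l).asymm k) d1.symm

end Pool.Agent.Lib.MP_ca0971_gt.OT
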