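import Pool.Agent.Lib.MP_ca0971_gt.OT.Loc.Ok
import Pool.Agent.Lib.MP_ca0971_gt.OT.DiaS

/-!
# Project OT, Loc: step at an interior double point
-/

set_option autoImplicit false

namespace Pool.Agent.Lib.MP_ca0971_gt.OT

open Finset Filter Topology

variable {I : Type} [Fintype I] [DecidableEq I] {σ : Equiv.Perm I}

omit [Fintype I] [DecidableEq I] in
/-- An interior meeting of v is a crossing of every near polygon. -/
theorem crs_of_near {v v' : I → E} {η : ℝ} (hG : Gap σ v η) (hN : Near σ v v' η) {i j : I}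
    (hm : Mt σ v i j) (hm' : Mt σ v j i) (p1 : 0 < par σ v i j) (p2 : par σ v i j < 1)
    (p3 : 0 < par σ v j i) (p4 : par σ v j i < 1) : Crs σ v' i j := by
  have a1 := hG.lo i j hm p1
  have a2 := hG.hi i j hm p2
  have a3 := hG.lo j i hm' p3
  have a4 := hG.hi j i hm' p4
  have b1 := abs_lt.1 (hN.n2 i j hm)
  have b2 := abs_lt.1 (hN.n2 j i hm')
  refine ⟨hm.1, fun h0 => ?_, ?_, ?_, ?_, ?_⟩
  · have := hN.n3 i j hm
    rw [h0, mul_zero] at this
    exact lt_irrefl _ this
  · linarith [b1.1]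
  · linarith [b1.2]
  · linarith [b2.1]
  · linarith [b2.2]

/-- Both v1 and v2 have the crossing; only positions change, and the order does not (hyb_lt):
Dia.Z_ord. -/
theorem step_X {v v1 v2 : I → E} {η : ℝ} (hL : LocD σ v v1 v2 η) {z : ℂ} {i j : I}
    (hS : SpotX σ v z i j) (S : Set ℂ) (hz : z ∉ S) (N : ℕ) :
    (hyb σ v v1 v2 (insert z S)).Z σ N = (hyb σ v v1 v2 S).Z σ N ∧
      (hyb σ v v1 v2 (insert z S)).w = (hyb σ v v1 v2 S).w := by
  have hij : Mt σ v i j := hS.mt
  have hji : Mt σ v j i := hS.mt.symm'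
  have c1 : Crs σ v1 i j := crs_of_near hL.gap hL.near1 hij hji hS.p1 hS.p2 hS.p3 hS.p4
  have c2 : Crs σ v2 i j := crs_of_near hL.gap hL.near2 hij hji hS.p1 hS.p2 hS.p3 hS.p4
  have hne : i ≠ j := fun h => hij.1 (Or.inl h)
  have key : ∀ a c, Mt σ v a c → mp σ v a c = z → Crs σ v1 a c ∧ Crs σ v2 a c := by
    intro a c hm hz'
    rcases hS.only a c hm hz' with ⟨rfl, rfl⟩ | ⟨rfl, rfl⟩
    · exact ⟨c1, c2⟩
    · exact ⟨c1.symm', c2.symm'⟩
  have hC : (hyb σ v v1 v2 (insert z S)).C = (hyb σ v v1 v2 S).C := by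
    ext ⟨a, c⟩
    rw [hyb_memC, hyb_memC]
    by_cases hm : Mt σ v a c
    · by_cases hz' : mp σ v a c = z
      · have hk := key a c hm hz'
        simp [hk.1, hk.2]
      · simp [Set.mem_insert_iff, hz']
    · simp [hm]
  refine ⟨?_, ?_⟩
  · refine Dia.Z_ord σ N _ _ hC rfl (fun _ _ _ => rfl) (fun _ _ _ => rfl) ?_
    intro a c d hc hd
    have mc := hyb_mt hc
    have md := hyb_mt hd
    rcases lt_trichotomy (par σ v a c) (par σ v a d) with hl | he | hl
    · exact ⟨fun _ => hyb_lt hL _ mc md hl, fun _ => hyb_lt hL _ mc md hl⟩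
    · have hda : dd σ v a ≠ 0 := by
        intro h0
        exact mc.2.1 (by simp [h0, dt])
      have hm := (par_eq_iff v hda).1 he
      by_cases hz' : mp σ v a c = z
      · have hz'' : mp σ v a d = z := hm ▸ hz'
        have hcd : c = d := by
          rcases hS.only a c mc hz' with ⟨h1, h2⟩ | ⟨h1, h2⟩ <;>
            rcases hS.only a d md hz'' with ⟨h3, h4⟩ | ⟨h3, h4⟩
          · rw [h2, h4]
          · exact absurd (h1.symm.trans h3) hne
          · exact absurd (h3.symm.trans h1) hne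
          · rw [h2, h4]
        subst hcd
        simp
      · have hz'' : mp σ v a d ≠ z := hm ▸ hz'
        have e1 : (hyb σ v v1 v2 (insert z S)).pos a c = (hyb σ v v1 v2 S).pos a c := by
          by_cases hs : mp σ v a c ∈ S
          · rw [hyb_pos_mem hs, hyb_pos_mem (Set.mem_insert_of_mem _ hs)]
          · rw [hyb_pos_not hs, hyb_pos_not (fun h => (Set.mem_insert_iff.1 h).elim hz' hs)]
        have e2 : (hyb σ v v1 v2 (insert z S)).pos a d = (hyb σ v v1 v2 S).pos a d := by
          by_cases hs : mp σ v a d ∈ S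
          · rw [hyb_pos_mem hs, hyb_pos_mem (Set.mem_insert_of_mem _ hs)]
          · rw [hyb_pos_not hs, hyb_pos_not (fun h => (Set.mem_insert_iff.1 h).elim hz'' hs)]
        rw [e1, e2]
    · exact ⟨fun h => absurd h (hyb_lt hL _ md mc hl).asymm, fun h => absurd h (hyb_lt hL _ md mc hl).asymm⟩
  · unfold Dia.w
    rw [hC]
    rfl

end Pool.Agent.Lib.MP_ca0971_gt.OT
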