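import Pool.Agent.Lib.MP_ca0971_gt.OT.Loc.Gap
import Pool.Agent.Lib.MP_ca0971_gt.OT.Loc.Near
import Pool.Agent.Lib.MP_ca0971_gt.OT.Loc.Norm
import Pool.Agent.Lib.MP_ca0971_gt.OT.Loc.Cases
import Pool.Agent.Lib.MP_ca0971_gt.OT.Loc.StepX
import Pool.Agent.Lib.MP_ca0971_gt.OT.Loc.StepV
import Pool.Agent.Lib.MP_ca0971_gt.OT.Loc.StepT

/-!
# Project OT, Loc: local constancy
-/

set_option autoImplicit false

namespace Pool.Agent.Lib.MP_ca0971_gt.OT

open Finset Filter Topology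

variable {I : Type} [Fintype I] [DecidableEq I] {σ : Equiv.Perm I}

/-- One spot. If no meeting of v is at z, the two diagrams are equal. -/
theorem hyb_step {v v1 v2 : I → E} {η : ℝ} (hL : LocD σ v v1 v2 η) (z : ℂ) (S : Set ℂ) (N : ℕ) :
    (hyb σ v v1 v2 (insert z S)).Z σ N = (hyb σ v v1 v2 S).Z σ N ∧
      (hyb σ v v1 v2 (insert z S)).w = (hyb σ v v1 v2 S).w := by
  by_cases hz : z ∈ S
  · rw [Set.insert_eq_of_mem hz]
    exact ⟨rfl, rfl⟩
  by_cases hm : ∃ i j, Mt σ v i j ∧ mp σ v i j = z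
  · obtain ⟨i, j, hij, rfl⟩ := hm
    rcases spot_cases hL.tame hij with ⟨a, c, h⟩ | ⟨a, c, h⟩ | ⟨t, m, b, h⟩
    · exact step_X hL h S hz N
    · exact step_V hL h S hz N
    · exact step_T hL h S hz N
  · have hne : ∀ i j, Mt σ v i j → mp σ v i j ≠ z := fun i j h h' => hm ⟨i, j, h, h'⟩
    have hC : (hyb σ v v1 v2 (insert z S)).C = (hyb σ v v1 v2 S).C := by
      ext ⟨a, c⟩
      rw [hyb_memC, hyb_memC]
      by_cases h : Mt σ v a c
      · simp [Set.mem_insert_iff, hne a c h]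
      · simp [h]
    refine ⟨?_, ?_⟩
    · refine Dia.Z_ord σ N _ _ hC rfl (fun _ _ _ => rfl) (fun _ _ _ => rfl) ?_
      intro a c d hc hd
      rw [stept_pos (hne a c (hyb_mt hc)), stept_pos (hne a d (hyb_mt hd))]
    · unfold Dia.w
      rw [hC]
      rfl

/-- Finitely many spots. -/
theorem hyb_steps {v v1 v2 : I → E} {η : ℝ} (hL : LocD σ v v1 v2 η) (F : Finset ℂ) (N : ℕ) :
    (hyb σ v v1 v2 (F : Set ℂ)).Z σ N = (hyb σ v v1 v2 ∅).Z σ N ∧
      (hyb σ v v1 v2 (F : Set ℂ)).w = (hyb σ v v1 v2 ∅).w := by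
  classical
  induction F using Finset.induction_on with
  | empty =>
    rw [Finset.coe_empty]
    exact ⟨rfl, rfl⟩
  | insert z F _ ih =>
    rw [Finset.coe_insert]
    obtain ⟨h1, h2⟩ := hyb_step hL z (F : Set ℂ) N
    exact ⟨h1.trans ih.1, h2.trans ih.2⟩

omit [Fintype I] [DecidableEq I] in
theorem dia_eq {D D' : Dia I} (h1 : D.C = D'.C) (h2 : D.pos = D'.pos) (h3 : D.th = D'.th)
    (h4 : D.ep = D'.ep) (h5 : D.b = D'.b) : D = D' := by
  cases D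
  cases D'
  simp_all

omit [DecidableEq I] in
theorem hyb_empty (v v1 v2 : I → E) : hyb σ v v1 v2 ∅ = hyb σ v v1 v1 ∅ := by
  refine dia_eq ?_ ?_ rfl rfl rfl
  · ext ⟨a, c⟩
    rw [hyb_memC, hyb_memC]
    simp
  · funext i j
    rw [hyb_pos_not (Set.notMem_empty _), hyb_pos_not (Set.notMem_empty _)]

omit [DecidableEq I] in
theorem hyb_all (v v1 v2 : I → E) {S : Set ℂ} (hS : ∀ i j, mp σ v i j ∈ S) :
    hyb σ v v1 v2 S = hyb σ v v2 v2 S := by
  refine dia_eq ?_ ?_ rfl rfl rfl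
  · ext ⟨a, c⟩
    rw [hyb_memC, hyb_memC]
    simp [hS a c]
  · funext i j
    rw [hyb_pos_mem (hS i j), hyb_pos_mem (hS i j)]

/-- Insert all meeting points one after the other: hyb v v1 v2 (all points) is the diagram
hyb v v2 v2 (all points). -/
theorem near_eq {v v1 v2 : I → E} {η : ℝ} (hL : LocD σ v v1 v2 η) (N : ℕ) :
    Zh σ v1 N = Zh σ v2 N := by
  classical
  obtain ⟨a1, a2⟩ := norm_Z hL.near1 hL.gen1 N ∅
  obtain ⟨b1, b2⟩ := norm_Z hL.near2 hL.gen2 N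
    ((univ.image fun p : I × I => mp σ v p.1 p.2 : Finset ℂ) : Set ℂ)
  obtain ⟨c1, c2⟩ := hyb_steps hL (univ.image fun p : I × I => mp σ v p.1 p.2) N
  rw [hyb_all (S := ((univ.image fun p : I × I => mp σ v p.1 p.2 : Finset ℂ) : Set ℂ)) v v1 v2
    (fun i j => Finset.mem_coe.2 (Finset.mem_image.2 ⟨(i, j), mem_univ _, rfl⟩)),
    hyb_empty v v1 v2] at c1 c2
  unfold Zh Dia.Zh
  rw [a1, a2, b1, b2, c1, c2]

/-- Local constancy. -/
theorem local_const {v : I → E} (hT : Tame σ v) (N : ℕ) :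
    ∃ ζ : ℝ, ∀ᶠ v' in 𝓝 v, Gen σ v' → Zh σ v' N = ζ := by
  obtain ⟨η, hη⟩ := gap_ex (σ := σ) v
  by_cases h : ∃ v1, Near σ v v1 η ∧ Gen σ v1
  · obtain ⟨v1, h1, h2⟩ := h
    refine ⟨Zh σ v1 N, ?_⟩
    filter_upwards [near_ev hT hη.pos] with v' hn hg
    exact near_eq ⟨hT, hη, hn, h1, hg, h2⟩ N
  · refine ⟨0, ?_⟩
    filter_upwards [near_ev hT hη.pos] with v' hn hg
    exact absurd ⟨v', hn, hg⟩ h

end Pool.Agent.Lib.MP_ca0971_gt.OT
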