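import Pool.Agent.Lib.MP_ca0971_gt.OT.Loc.Sym

/-!
# Project OT, Loc: the hybrid diagrams are fine
-/

set_option autoImplicit false

namespace Pool.Agent.Lib.MP_ca0971_gt.OT

open Finset Filter Topology

variable {I : Type} [Fintype I] [DecidableEq I] {σ : Equiv.Perm I}

omit [DecidableEq I] in
theorem hyb_memC {v v1 v2 : I → E} {S : Set ℂ} {i j : I} :
    (i, j) ∈ (hyb σ v v1 v2 S).C ↔ Mt σ v i j ∧ ht σ v j i < ht σ v i j ∧
      ((mp σ v i j ∈ S → Crs σ v2 i j) ∧ (mp σ v i j ∉ S → Crs σ v1 i j)) := by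
  classical
  by_cases h : mp σ v i j ∈ S <;> simp [hyb, h]

omit [DecidableEq I] in
theorem hyb_pos_mem {v v1 v2 : I → E} {S : Set ℂ} {i j : I} (h : mp σ v i j ∈ S) :
    (hyb σ v v1 v2 S).pos i j = par σ v2 i j := by
  simp [hyb, h]

omit [DecidableEq I] in
theorem hyb_pos_not {v v1 v2 : I → E} {S : Set ℂ} {i j : I} (h : mp σ v i j ∉ S) :
    (hyb σ v v1 v2 S).pos i j = par σ v1 i j := by
  simp [hyb, h]

/-- A crossing of a hybrid diagram is a meeting of v. -/
theorem hyb_mt {v v1 v2 : I → E} {S : Set ℂ} {i j : I} (h : (hyb σ v v1 v2 S).Pas i j) :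
    Mt σ v i j := by
  rcases h with h | h
  · exact (hyb_memC.1 h).1
  · exact (hyb_memC.1 h).1.symm'

/-- A crossing of a hybrid diagram is a crossing of v2 (at the spots in S) or of v1. -/
theorem hyb_crs {v v1 v2 : I → E} {S : Set ℂ} {i j : I} (h : (hyb σ v v1 v2 S).Pas i j) :
    (mp σ v i j ∈ S → Crs σ v2 i j) ∧ (mp σ v i j ∉ S → Crs σ v1 i j) := by
  rcases h with h | h
  · exact (hyb_memC.1 h).2.2
  · have h' := hyb_memC.1 h
    have e : mp σ v i j = mp σ v j i := mp_symm v h'.1.symm'.2.1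
    rw [e]
    exact ⟨fun hs => (h'.2.2.1 hs).symm', fun hs => (h'.2.2.2 hs).symm'⟩

omit [DecidableEq I] in
theorem hyb_pos_near {v v1 v2 : I → E} {η : ℝ} (hL : LocD σ v v1 v2 η) (S : Set ℂ) {i j : I}
    (hj : Mt σ v i j) : |(hyb σ v v1 v2 S).pos i j - par σ v i j| < η := by
  by_cases h : mp σ v i j ∈ S
  · rw [hyb_pos_mem h]; exact hL.near2.n2 i j hj
  · rw [hyb_pos_not h]; exact hL.near1.n2 i j hj

/-- Order of the positions in the hybrid diagrams: if the positions for v are different, they decide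
(two numbers which are η-close to numbers with distance ≥ 2 η). -/
theorem hyb_lt {v v1 v2 : I → E} {η : ℝ} (hL : LocD σ v v1 v2 η) (S : Set ℂ) {i j k : I}
    (hj : Mt σ v i j) (hk : Mt σ v i k) (h : par σ v i j < par σ v i k) :
    (hyb σ v v1 v2 S).pos i j < (hyb σ v v1 v2 S).pos i k := by
  have h1 := abs_lt.1 (hyb_pos_near hL S hj)
  have h2 := abs_lt.1 (hyb_pos_near hL S hk)
  have h3 := hL.gap.gap i j k hj hk h.ne
  rw [abs_of_neg (by linarith)] at h3
  linarith [h1.1, h1.2, h2.1, h2.2]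

/-- inj: if par v i j = par v i k then both crossings are at the same spot (par_eq_iff), so they are
both taken from v1 or both from v2, and Gen.trp of that polygon applies; otherwise hyb_lt. -/
theorem hyb_ok {v v1 v2 : I → E} {η : ℝ} (hL : LocD σ v v1 v2 η) (S : Set ℂ) :
    (hyb σ v v1 v2 S).Ok := by
  refine ⟨fun i h => ?_, fun i j h h' => ?_, fun i j k hj hk h => ?_, fun i j _ => ?_⟩
  · exact (hyb_memC.1 h).1.1 (Or.inl rfl)
  · exact lt_asymm (hyb_memC.1 h).2.1 (hyb_memC.1 h').2.1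
  · have mj := hyb_mt hj
    have mk := hyb_mt hk
    rcases lt_trichotomy (par σ v i j) (par σ v i k) with hl | he | hl
    · exact absurd h (hyb_lt hL S mj mk hl).ne
    · have hd : dd σ v i ≠ 0 := by
        intro h0
        exact mj.2.1 (by simp [h0, dt])
      have hm := (par_eq_iff v hd).1 he
      have cj := hyb_crs hj
      have ck := hyb_crs hk
      by_cases hs : mp σ v i j ∈ S
      · have hs' : mp σ v i k ∈ S := hm ▸ hs
        rw [hyb_pos_mem hs, hyb_pos_mem hs'] at h
        exact hL.gen2.trp i j k (cj.1 hs) (ck.1 hs') h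
      · have hs' : mp σ v i k ∉ S := hm ▸ hs
        rw [hyb_pos_not hs, hyb_pos_not hs'] at h
        exact hL.gen1.trp i j k (cj.2 hs) (ck.2 hs') h
    · exact absurd h (hyb_lt hL S mk mj hl).ne'
  · simp only [hyb]
    split_ifs
    · exact Or.inl rfl
    · exact Or.inr rfl

end Pool.Agent.Lib.MP_ca0971_gt.OT
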